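import Mathlib

set_option autoImplicit false

/-!
# Cubical complexes, their `ℓ^p` metrics and compactifications

The definitions used in the answer to the question of identity extensions between the
compactifications of a CAT(0) cube complex with respect to its piecewise `ℓ^p` metrics.
-/

namespace Pool.Agent.TH588

/-- The closed unit cube `[0,1]^n`. -/
def cube (n : ℕ) : Set (Fin n → ℝ) := {u | ∀ i, 0 ≤ u i ∧ u i ≤ 1}

/-- Faces of the unit cube: some coordinates are fixed to values `0` or `1`. -/
def IsFace {n : ℕ} (T : Set (Fin n → ℝ)) : Prop :=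
  ∃ (s : Set (Fin n)) (e : Fin n → ℝ), (∀ i, e i = 0 ∨ e i = 1) ∧
    T = {u | u ∈ cube n ∧ ∀ i ∈ s, u i = e i}

/-- The `ℓ^p` distance on `ℝ^n`. -/
noncomputable def lpDist (p : ℝ) {n : ℕ} (u v : Fin n → ℝ) : ℝ :=
  (∑ i, |u i - v i| ^ p) ^ (1 / p)

/-- Cubical complexes (Bridson-Haefliger, Definition I.7.32): a set `X` covered by injective charts
defined on unit cubes, such that two cubes that meet are glued along an isometry from a face of the
first onto a face of the second. -/
structure CubeComplex (X : Type) where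
  /-- the index set of the charts -/
  Idx : Type
  /-- the dimension of a cube -/
  dim : Idx → ℕ
  /-- the charts (only their values on the unit cube matter) -/
  chart : (i : Idx) → (Fin (dim i) → ℝ) → X
  cover : ∀ x, ∃ i, ∃ u ∈ cube (dim i), chart i u = x
  inj : ∀ i, Set.InjOn (chart i) (cube (dim i))
  glue : ∀ i j, (∃ u ∈ cube (dim i), ∃ v ∈ cube (dim j), chart i u = chart j v) →
    ∃ (T : Set (Fin (dim i) → ℝ)) (T' : Set (Fin (dim j) → ℝ))
      (h : (Fin (dim i) → ℝ) → (Fin (dim j) → ℝ)), IsFace T ∧ IsFace T' ∧ h '' T = T' ∧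
      (∀ u ∈ T, ∀ v ∈ T, lpDist 2 (h u) (h v) = lpDist 2 u v) ∧
      ∀ u ∈ cube (dim i), ∀ v ∈ cube (dim j), chart i u = chart j v ↔ (u ∈ T ∧ v = h u)

/-- `c` restricted to `[0,1]` is a constant speed geodesic from `x` to `y`. -/
def IsGeodesic {X : Type} (d : X → X → ℝ) (x y : X) (c : ℝ → X) : Prop :=
  c 0 = x ∧ c 1 = y ∧
    ∀ s ∈ Set.Icc (0 : ℝ) 1, ∀ t ∈ Set.Icc (0 : ℝ) 1, d (c s) (c t) = |s - t| * d x y

/-- `d` is a metric. -/
def IsMetric {X : Type} (d : X → X → ℝ) : Prop :=
  (∀ x y, 0 ≤ d x y) ∧ (∀ x y, d x y = 0 ↔ x = y) ∧ (∀ x y, d x y = d y x) ∧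
    ∀ x y z, d x z ≤ d x y + d y z

/-- Any two points are joined by a geodesic, and only by one. -/
def UniquelyGeodesic {X : Type} (d : X → X → ℝ) : Prop :=
  (∀ x y, ∃ c, IsGeodesic d x y c) ∧
    ∀ x y c c', IsGeodesic d x y c → IsGeodesic d x y c' → ∀ t ∈ Set.Icc (0 : ℝ) 1, c t = c' t

/-- CAT(0) spaces: geodesic metric spaces whose triangles are at least as thin as in the plane. -/
def IsCAT0 {X : Type} (d : X → X → ℝ) : Prop :=
  IsMetric d ∧ (∀ x y, ∃ c, IsGeodesic d x y c) ∧
    ∀ x y c, IsGeodesic d x y c → ∀ z, ∀ t ∈ Set.Icc (0 : ℝ) 1,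
      d z (c t) ^ 2 ≤ (1 - t) * d z x ^ 2 + t * d z y ^ 2 - t * (1 - t) * d x y ^ 2

namespace CubeComplex

variable {X : Type} (K : CubeComplex X)

/-- `K.Chain p x y L`: there are points `x = x_0, x_1, …, x_k = y` such that each two consecutive
points lie in a common cube, and `L` is the sum of the `ℓ^p` distances of consecutive points in
these cubes. -/
inductive Chain (p : ℝ) : X → X → ℝ → Prop
  | refl (x : X) : Chain p x x 0
  | step {y : X} {L : ℝ} (i : K.Idx) (u v : Fin (K.dim i) → ℝ) (hu : u ∈ cube (K.dim i))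
      (hv : v ∈ cube (K.dim i)) (h : Chain p (K.chart i v) y L) :
      Chain p (K.chart i u) y (lpDist p u v + L)

/-- The piecewise `ℓ^p` metric: the gluing metric obtained by giving each cube the `ℓ^p` metric,
i.e. the infimum of the lengths of chains. -/
noncomputable def dist (p : ℝ) (x y : X) : ℝ := sInf {L | K.Chain p x y L}

/-- A CAT(0) cube complex: the piecewise Euclidean metric is CAT(0). -/
def CAT0 : Prop := IsCAT0 (K.dist 2)

/-- The action of `G` on `X` is by automorphisms of the cube complex `K`: every `g` maps each cube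
onto a cube by a Euclidean isometry. -/
def ActsByAutomorphisms (G : Type) [Group G] [MulAction G X] : Prop :=
  ∀ (g : G) (i : K.Idx), ∃ (j : K.Idx) (h : (Fin (K.dim i) → ℝ) → (Fin (K.dim j) → ℝ)),
    h '' cube (K.dim i) = cube (K.dim j) ∧
    (∀ u ∈ cube (K.dim i), ∀ v ∈ cube (K.dim i), lpDist 2 (h u) (h v) = lpDist 2 u v) ∧
    ∀ u ∈ cube (K.dim i), g • K.chart i u = K.chart j (h u)

end CubeComplex

/-- The topology of a metric `d`, generated by the open balls. -/
@[instance_reducible]
def ballTopology {X : Type} (d : X → X → ℝ) : TopologicalSpace X :=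
  TopologicalSpace.generateFrom {B | ∃ x r, B = {y | d x y < r}}

/-- Geodesic rays issuing from `o`. -/
def Ray {X : Type} (d : X → X → ℝ) (o : X) : Type :=
  {c : NNReal → X // c 0 = o ∧ ∀ s t, d (c s) (c t) = |(s : ℝ) - t|}

/-- The points of the compactification: the points of `X` and the geodesic rays issuing from the
base point `o`. -/
inductive Compactification {X : Type} (d : X → X → ℝ) (o : X) : Type
  | point (x : X) : Compactification d o
  | ray (c : Ray d o) : Compactification d o

/-- Basic neighbourhoods of a ray `c`: the points (at distance more than `R` from `o`) and the rays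
whose geodesic from `o` passes, at distance `R` from `o`, within `ε` of `c R`. -/
def coneNhd {X : Type} {d : X → X → ℝ} {o : X} (c : Ray d o) (R : NNReal) (ε : ℝ) :
    Set (Compactification d o) :=
  Compactification.point ''
      {x | (R : ℝ) < d o x ∧ ∃ g, IsGeodesic d o x g ∧ d (g (R / d o x)) (c.1 R) < ε} ∪
    Compactification.ray '' {c' | d (c'.1 R) (c.1 R) < ε}

/-- The cone topology: generated by the open balls of `X` and the basic neighbourhoods of the
rays. -/
instance {X : Type} (d : X → X → ℝ) (o : X) : TopologicalSpace (Compactification d o) :=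
  TopologicalSpace.generateFrom
    ({B | ∃ x r, B = Compactification.point '' {y | d x y < r}} ∪
      {U | ∃ (c : Ray d o) (R : NNReal) (ε : ℝ), 0 < ε ∧ U = coneNhd c R ε})

end Pool.Agent.TH588
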