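import Mathlib

set_option autoImplicit false

/-! The `ℓ^p` norm on the plane. -/

namespace Pool.Agent.TH588

open Real

/-- The `ℓ^p` norm of the vector `(a, b)`. -/
noncomputable def nrm2 (p a b : ℝ) : ℝ := (|a| ^ p + |b| ^ p) ^ (1 / p)

theorem nrm2_nonneg (p a b : ℝ) : 0 ≤ nrm2 p a b := by
  unfold nrm2; positivity

theorem nrm2_rpow {p : ℝ} (hp : 1 ≤ p) (a b : ℝ) : nrm2 p a b ^ p = |a| ^ p + |b| ^ p := by
  unfold nrm2
  rw [← rpow_mul (by positivity), one_div, inv_mul_cancel₀ (by linarith), rpow_one]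

theorem nrm2_eq_of_rpow {p : ℝ} (hp : 1 ≤ p) {a b c : ℝ} (hc : 0 ≤ c)
    (h : c ^ p = |a| ^ p + |b| ^ p) : nrm2 p a b = c := by
  unfold nrm2
  rw [← h, ← rpow_mul hc, mul_one_div_cancel (by linarith), rpow_one]

theorem nrm2_neg (p a b : ℝ) : nrm2 p (-a) (-b) = nrm2 p a b := by
  simp [nrm2]

theorem nrm2_abs (p a b : ℝ) : nrm2 p |a| |b| = nrm2 p a b := by
  simp [nrm2]

theorem nrm2_zero {p : ℝ} (hp : 1 ≤ p) : nrm2 p 0 0 = 0 := by
  have : p ≠ 0 := by linarith
  simp [nrm2, zero_rpow this, zero_rpow (inv_ne_zero this)]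

theorem nrm2_zero_right {p : ℝ} (hp : 1 ≤ p) (a : ℝ) : nrm2 p a 0 = |a| := by
  apply nrm2_eq_of_rpow hp (abs_nonneg a)
  have : p ≠ 0 := by linarith
  simp [zero_rpow this]

theorem nrm2_zero_left {p : ℝ} (hp : 1 ≤ p) (b : ℝ) : nrm2 p 0 b = |b| := by
  apply nrm2_eq_of_rpow hp (abs_nonneg b)
  have : p ≠ 0 := by linarith
  simp [zero_rpow this]

theorem nrm2_mono {p : ℝ} (hp : 1 ≤ p) {a b a' b' : ℝ} (ha : |a| ≤ |a'|) (hb : |b| ≤ |b'|) :
    nrm2 p a b ≤ nrm2 p a' b' := by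
  unfold nrm2
  have : 0 ≤ p := by linarith
  gcongr

theorem le_nrm2_left {p : ℝ} (hp : 1 ≤ p) (a b : ℝ) : |a| ≤ nrm2 p a b := by
  rw [← nrm2_zero_right hp a]
  exact nrm2_mono hp le_rfl (by simp)

theorem le_nrm2_right {p : ℝ} (hp : 1 ≤ p) (a b : ℝ) : |b| ≤ nrm2 p a b := by
  rw [← nrm2_zero_left hp b]
  exact nrm2_mono hp (by simp) le_rfl

theorem nrm2_eq_zero {p : ℝ} (hp : 1 ≤ p) {a b : ℝ} (h : nrm2 p a b = 0) : a = 0 ∧ b = 0 := by
  constructor
  · have := le_nrm2_left hp a b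
    rw [h] at this
    exact abs_nonpos_iff.mp this
  · have := le_nrm2_right hp a b
    rw [h] at this
    exact abs_nonpos_iff.mp this

theorem nrm2_smul {p : ℝ} (hp : 1 ≤ p) (t a b : ℝ) : nrm2 p (t * a) (t * b) = |t| * nrm2 p a b := by
  apply nrm2_eq_of_rpow hp (mul_nonneg (abs_nonneg _) (nrm2_nonneg _ _ _))
  rw [mul_rpow (abs_nonneg _) (nrm2_nonneg _ _ _), nrm2_rpow hp, abs_mul, abs_mul,
    mul_rpow (abs_nonneg _) (abs_nonneg _), mul_rpow (abs_nonneg _) (abs_nonneg _)]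
  ring

theorem nrm2_add_le {p : ℝ} (hp : 1 ≤ p) (a b a' b' : ℝ) :
    nrm2 p (a + a') (b + b') ≤ nrm2 p a b + nrm2 p a' b' := by
  have := Real.Lp_add_le (Finset.univ : Finset (Fin 2)) ![a, b] ![a', b'] hp
  simpa [nrm2, Fin.sum_univ_two] using this

/-- strict convexity of `|x|^p` -/
theorem abs_rpow_combo {p : ℝ} (hp : 1 < p) {x y t : ℝ} (ht0 : 0 < t) (ht1 : t < 1) (hxy : x ≠ y) :
    |t * x + (1 - t) * y| ^ p < t * |x| ^ p + (1 - t) * |y| ^ p := by
  have h1t : 0 < 1 - t := by linarith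
  have hp0 : 0 < p := by linarith
  by_cases hab : |x| = |y|
  · -- then x = -y ≠ 0
    have hxy' : x = -y := by
      rcases abs_eq_abs.mp hab with h | h
      · exact absurd h hxy
      · exact h
    have hy : y ≠ 0 := by
      rintro rfl
      simp at hxy'
      exact hxy hxy'
    have hlt : |t * x + (1 - t) * y| < |y| := by
      rw [hxy']
      have : t * -y + (1 - t) * y = (1 - 2 * t) * y := by ring
      rw [this, abs_mul]
      have hy' : 0 < |y| := abs_pos.mpr hy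
      have : |1 - 2 * t| < 1 := by rw [abs_lt]; constructor <;> linarith
      nlinarith
    calc |t * x + (1 - t) * y| ^ p < |y| ^ p := rpow_lt_rpow (abs_nonneg _) hlt hp0
      _ = t * |x| ^ p + (1 - t) * |y| ^ p := by rw [hab]; ring
  · have h2 := (strictConvexOn_rpow hp).2 (Set.mem_Ici.mpr (abs_nonneg x))
      (Set.mem_Ici.mpr (abs_nonneg y)) hab ht0 h1t (by ring)
    simp only [smul_eq_mul] at h2
    refine lt_of_le_of_lt ?_ h2
    apply rpow_le_rpow (abs_nonneg _) _ hp0.le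
    calc |t * x + (1 - t) * y| ≤ |t * x| + |(1 - t) * y| := abs_add_le _ _
      _ = t * |x| + (1 - t) * |y| := by rw [abs_mul, abs_mul, abs_of_pos ht0, abs_of_pos h1t]

theorem abs_rpow_combo_le {p : ℝ} (hp : 1 < p) {x y t : ℝ} (ht0 : 0 < t) (ht1 : t < 1) :
    |t * x + (1 - t) * y| ^ p ≤ t * |x| ^ p + (1 - t) * |y| ^ p := by
  by_cases h : x = y
  · rw [h]
    have : t * y + (1 - t) * y = y := by ring
    rw [this]
    apply le_of_eq; ring
  · exact (abs_rpow_combo hp ht0 ht1 h).le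

/-- Equality in Minkowski's inequality. -/
theorem nrm2_add_eq {p : ℝ} (hp : 1 < p) {a b a' b' : ℝ}
    (h : nrm2 p a b + nrm2 p a' b' ≤ nrm2 p (a + a') (b + b')) :
    nrm2 p a' b' * a = nrm2 p a b * a' ∧ nrm2 p a' b' * b = nrm2 p a b * b' := by
  have hp1 : 1 ≤ p := hp.le
  have hp0 : 0 < p := by linarith
  rcases eq_or_lt_of_le (nrm2_nonneg p a b) with hn | hn
  · obtain ⟨rfl, rfl⟩ := nrm2_eq_zero hp1 hn.symm
    rw [← hn]; simp
  rcases eq_or_lt_of_le (nrm2_nonneg p a' b') with hn' | hn'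
  · obtain ⟨rfl, rfl⟩ := nrm2_eq_zero hp1 hn'.symm
    rw [← hn']; simp
  set n := nrm2 p a b with hndef
  set n' := nrm2 p a' b' with hndef'
  have hs : 0 < n + n' := by linarith
  set t := n / (n + n') with ht
  have ht0 : 0 < t := by positivity
  have ht1 : t < 1 := by rw [ht, div_lt_one hs]; linarith
  have h1t : 1 - t = n' / (n + n') := by rw [ht]; field_simp; ring
  have hx : t * (a / n) + (1 - t) * (a' / n') = (a + a') / (n + n') := by
    rw [h1t, ht]; field_simp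
  have hy : t * (b / n) + (1 - t) * (b' / n') = (b + b') / (n + n') := by
    rw [h1t, ht]; field_simp
  have hA : |a / n| ^ p + |b / n| ^ p = 1 := by
    rw [abs_div, abs_div, abs_of_pos hn, div_rpow (abs_nonneg _) hn.le,
      div_rpow (abs_nonneg _) hn.le, ← add_div, hndef, nrm2_rpow hp1, div_self]
    rw [← nrm2_rpow hp1, ← hndef]
    positivity
  have hA' : |a' / n'| ^ p + |b' / n'| ^ p = 1 := by
    rw [abs_div, abs_div, abs_of_pos hn', div_rpow (abs_nonneg _) hn'.le,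
      div_rpow (abs_nonneg _) hn'.le, ← add_div, hndef', nrm2_rpow hp1, div_self]
    rw [← nrm2_rpow hp1, ← hndef']
    positivity
  have hS : 1 ≤ |(a + a') / (n + n')| ^ p + |(b + b') / (n + n')| ^ p := by
    rw [abs_div, abs_div, abs_of_pos hs, div_rpow (abs_nonneg _) hs.le,
      div_rpow (abs_nonneg _) hs.le, ← add_div, ← nrm2_rpow hp1, ← div_rpow (nrm2_nonneg _ _ _) hs.le]
    apply one_le_rpow _ hp0.le
    rw [le_div_iff₀ hs]
    linarith
  rw [← hx, ← hy] at hS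
  have hxx : a / n = a' / n' := by
    by_contra hne
    have h1 := abs_rpow_combo hp ht0 ht1 hne
    have h2 := abs_rpow_combo_le hp (x := b / n) (y := b' / n') ht0 ht1
    nlinarith
  have hyy : b / n = b' / n' := by
    by_contra hne
    have h1 := abs_rpow_combo hp ht0 ht1 hne
    have h2 := abs_rpow_combo_le hp (x := a / n) (y := a' / n') ht0 ht1
    nlinarith
  rw [div_eq_div_iff hn.ne' hn'.ne'] at hxx hyy
  constructor <;> linarith

theorem nrm2_strictMono {p : ℝ} (hp : 1 ≤ p) {a a' b : ℝ} (ha : |a| < |a'|) :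
    nrm2 p a b < nrm2 p a' b := by
  unfold nrm2
  have hp0 : 0 < p := by linarith
  apply rpow_lt_rpow (by positivity) _ (by positivity)
  have := rpow_lt_rpow (abs_nonneg a) ha hp0
  linarith

end Pool.Agent.TH588
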