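import Mathlib

set_option autoImplicit false

/-! The tree of blocks of the free group on two letters: for a block `(k, c)`, which is thought of
as the edge from `k` to `k * of c`, and a vertex `g`, `side g (k, c)` tells on which side of the
block the vertex `g` lies. -/

namespace Pool.Agent.TH588

open FreeGroup

/-- The free group on two letters. -/
abbrev F2 : Type := FreeGroup Bool

/-- Blocks: the block `(k, c)` joins `k` to `k * of c`. -/
abbrev Blk : Type := F2 × Bool

/-- `side g (k, c)` is `true` if the vertex `g` lies on the side of `k * of c`. -/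
def side (g : F2) (b : Blk) : Bool := decide ((g⁻¹ * b.1).toWord.getLast? = some (b.2, false))

theorem side_self (g : F2) (c : Bool) : side g (g, c) = false := by
  simp [side]

theorem side_mul_left (k g : F2) (b : Blk) : side (k * g) (k * b.1, b.2) = side g b := by
  simp only [side]
  congr 3
  group

theorem side_mul (g : F2) (c : Bool) (b : Blk) :
    side (g * of c) b = if b = (g, c) then true else side g b := by
  obtain ⟨k, d⟩ := b
  have h1 : (g * of c)⁻¹ * k = (of c)⁻¹ * (g⁻¹ * k) := by group
  have hk : k = g ↔ (g⁻¹ * k).toWord = [] := by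
    rw [toWord_eq_nil_iff, inv_mul_eq_one, eq_comm]
  simp only [side, h1, Prod.mk.injEq, hk]
  have h2 : ((of c)⁻¹ * (g⁻¹ * k)).toWord = reduce ((c, false) :: (g⁻¹ * k).toWord) := by
    rw [toWord_mul, toWord_inv, toWord_of]
    rfl
  rw [h2, reduce.cons, reduce_toWord]
  rcases (g⁻¹ * k).toWord with _ | ⟨hd, tl⟩
  · simp
    by_cases h : c = d
    · simp [h]
    · have h' : ¬ d = c := fun h' => h h'.symm
      simp [h, h']
  · simp only [reduceCtorEq, false_and, if_false]
    split_ifs with h
    · rcases tl with _ | ⟨a, tl⟩
      · obtain ⟨h3, h4⟩ := h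
        simp at h4
        simp
        intro h5
        rw [h5] at h4
        simp at h4
      · simp
    · simp

/-- Going from `g` towards `h ≠ g`. -/
theorem exists_step {g h : F2} (hne : g ≠ h) :
    (∃ c, side h (g, c) = true) ∨ (∃ c, side h (g * (of c)⁻¹, c) = false) := by
  have h0 : (h⁻¹ * g).toWord ≠ [] := by
    rw [Ne, toWord_eq_nil_iff, inv_mul_eq_one]
    exact fun h => hne h.symm
  obtain ⟨L, ⟨c, e⟩, hL⟩ : ∃ L x, (h⁻¹ * g).toWord = L ++ [x] :=
    ⟨_, _, (List.dropLast_append_getLast h0).symm⟩
  cases e
  · left
    refine ⟨c, ?_⟩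
    simp [side, hL]
  · right
    refine ⟨c, ?_⟩
    have hred : IsReduced (L ++ [(c, true)]) := by
      rw [← hL]; exact isReduced_toWord
    have hredL : IsReduced L := List.IsChain.left_of_append hred
    have h1 : h⁻¹ * (g * (of c)⁻¹) = mk L := by
      have : h⁻¹ * g = mk L * of c := by
        rw [← mk_toWord (x := h⁻¹ * g), hL, of, mul_mk]
      rw [← mul_assoc, this]
      group
    simp only [side, h1, toWord_mk, hredL.reduce_eq, decide_eq_false_iff_not]
    intro h2
    obtain ⟨L', hL'⟩ : ∃ L', L = L' ++ [(c, false)] := by
      rcases List.eq_nil_or_concat L with h3 | ⟨L', x, h3⟩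
      · simp [h3] at h2
      · refine ⟨L', ?_⟩
        rw [h3] at h2 ⊢
        simpa using h2
    rw [hL'] at hred
    rw [List.append_assoc] at hred
    have h3 : IsReduced [(c, false), (c, true)] := List.IsChain.right_of_append hred
    simp [FreeGroup.IsReduced] at h3

theorem side_mul_inv (g : F2) (c : Bool) (b : Blk) :
    side g b = if b = (g * (of c)⁻¹, c) then true else side (g * (of c)⁻¹) b := by
  have := side_mul (g * (of c)⁻¹) c b
  rwa [inv_mul_cancel_right] at this

theorem side_inj {g h : F2} (H : side g = side h) : g = h := by
  by_contra hne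
  rcases exists_step hne with ⟨c, hc⟩ | ⟨c, hc⟩
  · rw [← H, side_self] at hc
    exact absurd hc (by simp)
  · rw [← H, side_mul_inv g c, if_pos rfl] at hc
    exact absurd hc (by simp)

theorem finite_side_mul (w : F2) : ∀ g : F2, {b | side g b ≠ side (g * w) b}.Finite := by
  induction w using FreeGroup.induction_on with
  | C1 => intro g; simp
  | of c =>
    intro g
    apply (Set.finite_singleton (g, c)).subset
    intro b hb
    simp only [Set.mem_ofPred_eq, side_mul] at hb
    by_contra h
    rw [Set.mem_singleton_iff] at h
    rw [if_neg h] at hb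
    exact hb rfl
  | inv_of c _ =>
    intro g
    apply (Set.finite_singleton (g * (of c)⁻¹, c)).subset
    intro b hb
    simp only [Set.mem_ofPred_eq] at hb
    rw [side_mul_inv g c] at hb
    by_contra h
    rw [Set.mem_singleton_iff] at h
    rw [if_neg h] at hb
    exact hb rfl
  | mul x y hx hy =>
    intro g
    apply ((hx g).union (hy (g * x))).subset
    intro b hb
    simp only [Set.mem_ofPred_eq, Set.mem_union, mul_assoc] at hb ⊢
    by_contra h
    push Not at h
    exact hb (h.1.trans h.2)

theorem finite_side (g h : F2) : {b | side g b ≠ side h b}.Finite := by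
  have := finite_side_mul (g⁻¹ * h) g
  rwa [mul_inv_cancel_left] at this

/-- If `h` and `h'` lie on the side of the block `b` opposite to the block `b'`, then they lie on
the same side of `b'`. -/
theorem nested {b b' : Blk} (hne : b ≠ b') :
    ∀ (n : ℕ) (h h' : F2), {e | side h e ≠ side h' e}.ncard ≤ n →
      side h b ≠ side b'.1 b → side h' b ≠ side b'.1 b → side h b' = side h' b' := by
  intro n
  induction n with
  | zero =>
    intro h h' hc _ _
    have h0 : {e | side h e ≠ side h' e} = ∅ := by
      rw [Nat.le_zero, Set.ncard_eq_zero (finite_side h h')] at hc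
      exact hc
    by_contra hh
    have : b' ∈ ({e | side h e ≠ side h' e} : Set Blk) := hh
    rw [h0] at this
    exact this
  | succ n ih =>
    intro h h' hc h1 h2
    by_cases heq : h = h'
    · rw [heq]
    have key : ∀ (h3 : F2) (e : Blk), (∀ b, b ≠ e → side h3 b = side h b) → side h3 e = side h' e →
        side h e ≠ side h' e → e ≠ b → e ≠ b' → side h b' = side h' b' := by
      intro h3 e H1 H2 H3 H4 H5
      rw [← H1 b' H5.symm]
      apply ih h3 h' _ _ h2
      · have hlt : ({x | side h3 x ≠ side h' x} : Set Blk).ncard <
            ({x | side h x ≠ side h' x} : Set Blk).ncard := by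
          apply Set.ncard_lt_ncard _ (finite_side h h')
          rw [Set.ssubset_iff_of_subset]
          · exact ⟨e, H3, fun h => h H2⟩
          · intro x hx
            by_cases hxe : x = e
            · exact absurd H2 (by rw [← hxe]; exact hx)
            · simpa [H1 x hxe] using hx
        omega
      · rw [H1 b H4.symm]; exact h1
    rcases exists_step heq with ⟨c, hc'⟩ | ⟨c, hc'⟩
    · have hs : side h (h, c) = false := side_self h c
      apply key (h * of c) (h, c)
      · intro b hb
        rw [side_mul, if_neg hb]
      · rw [side_mul, if_pos rfl, hc']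
      · rw [hs, hc']; simp
      · rintro rfl
        rw [hs] at h1
        rw [hc'] at h2
        cases hb : side b'.1 (h, c) <;> simp [hb] at h1 h2
      · rintro rfl
        exact h1 rfl
    · have hs : side h (h * (of c)⁻¹, c) = true := by rw [side_mul_inv, if_pos rfl]
      apply key (h * (of c)⁻¹) (h * (of c)⁻¹, c)
      · intro b hb
        rw [side_mul_inv h c b, if_neg hb]
      · rw [side_self, hc']
      · rw [hs, hc']; simp
      · rintro rfl
        rw [hs] at h1
        rw [hc'] at h2
        cases hb : side b'.1 (h * (of c)⁻¹, c) <;> simp [hb] at h1 h2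
      · rintro rfl
        apply h1
        rw [side_mul_inv h c b, if_neg hne]

theorem nested' {b b' : Blk} (hne : b ≠ b') {h h' : F2}
    (h1 : side h b ≠ side b'.1 b) (h2 : side h' b ≠ side b'.1 b) : side h b' = side h' b' :=
  nested hne _ h h' le_rfl h1 h2

/-- The two endpoints of a block. -/
def far (b : Blk) : F2 := b.1 * of b.2

theorem side_far (b b' : Blk) : side (far b) b' = if b' = b then true else side b.1 b' :=
  side_mul b.1 b.2 b'

theorem side_near (b : Blk) : side b.1 b = false := side_self b.1 b.2

/-- Not all four combinations of sides of two different blocks occur. -/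
theorem no_four {b b' : Blk} (hne : b ≠ b') {g h h' : F2} (hg : g = b.1 ∨ g = far b)
    (h1 : side h b ≠ side g b) (h2 : side h b' ≠ side g b') (h3 : side h' b = side g b)
    (h4 : side h' b' ≠ side g b') : False := by
  -- the two endpoints of `b` have the same `b'`-side
  have e1 : side (far b) b' = side b.1 b' := by rw [side_far, if_neg hne.symm]
  have e2 : side (far b) b = true := by rw [side_far, if_pos rfl]
  have e3 := side_near b
  obtain ⟨g', hg'1, hg'2⟩ : ∃ g', side g' b ≠ side g b ∧ side g' b' = side g b' := by
    rcases hg with rfl | rfl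
    · exact ⟨far b, by rw [e2, e3]; simp, e1⟩
    · exact ⟨b.1, by rw [e2, e3]; simp, e1.symm⟩
  by_cases hs : side b'.1 b = side g b
  · have := nested' hne (h := g') (h' := h) (by rw [hs]; exact hg'1) (by rw [hs]; exact h1)
    rw [hg'2] at this
    exact h2 this.symm
  · have := nested' hne (h := g) (h' := h') (fun h => hs h.symm)
      (by rw [h3]; exact fun h => hs h.symm)
    exact h4 this.symm

end Pool.Agent.TH588
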