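import Mathlib
import Pool.Agent.TH588.Tree
import Pool.Agent.TH588.Norm

set_option autoImplicit false

/-! The tree of squares `Y`. -/

namespace Pool.Agent.TH588

open FreeGroup

/-- The exit corner of a block. -/
def corner (c : Bool) : ℝ × ℝ := if c then (1, 0) else (1, 1)

/-- The unit square. -/
def sq : Set (ℝ × ℝ) := {u | (0 ≤ u.1 ∧ u.1 ≤ 1) ∧ (0 ≤ u.2 ∧ u.2 ≤ 1)}

theorem corner_mem (c : Bool) : corner c ∈ sq := by
  cases c <;> simp [corner, sq]

theorem zero_mem_sq : (0 : ℝ × ℝ) ∈ sq := by simp [sq]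

theorem corner_ne (c : Bool) : corner c ≠ 0 := by
  cases c <;> simp [corner, Prod.ext_iff]

/-- The coordinates of the vertex `g`. -/
noncomputable def vtx (g : F2) : Blk → ℝ × ℝ := fun b => if side g b then corner b.2 else 0

/-- The point with coordinates `u` in the block `b`. -/
noncomputable def pt (b : Blk) (u : ℝ × ℝ) : Blk → ℝ × ℝ := Function.update (vtx b.1) b u

/-- The points of the tree of squares. -/
def InY (y : Blk → ℝ × ℝ) : Prop := ∃ b, ∃ u ∈ sq, y = pt b u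

theorem vtx_eq_iff (g h : F2) (b : Blk) : vtx g b = vtx h b ↔ side g b = side h b := by
  unfold vtx
  cases h1 : side g b <;> cases h2 : side h b <;> simp [corner_ne, (corner_ne _).symm]

theorem vtx_mem_sq (g : F2) (b : Blk) : vtx g b ∈ sq := by
  unfold vtx
  split_ifs
  · exact corner_mem _
  · exact zero_mem_sq

@[simp] theorem pt_same (b : Blk) (u : ℝ × ℝ) : pt b u b = u := by simp [pt]

theorem pt_ne {b b' : Blk} (u : ℝ × ℝ) (h : b' ≠ b) : pt b u b' = vtx b.1 b' := by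
  simp [pt, Function.update_of_ne h]

theorem vtx_eq_near (b : Blk) : vtx b.1 = pt b 0 := by
  ext1 b'
  by_cases h : b' = b
  · subst h; simp [vtx, side_near]
  · rw [pt_ne _ h]

theorem vtx_eq_far (b : Blk) : vtx (far b) = pt b (corner b.2) := by
  ext1 b'
  by_cases h : b' = b
  · subst h; simp [vtx, side_far]
  · rw [pt_ne _ h, vtx_eq_iff, side_far, if_neg h]

theorem vtx_far_ne {b b' : Blk} (h : b' ≠ b) : vtx (far b) b' = vtx b.1 b' := by
  rw [vtx_eq_far, pt_ne _ h]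

theorem pt_mem {b : Blk} {u : ℝ × ℝ} (hu : u ∈ sq) : InY (pt b u) := ⟨b, u, hu, rfl⟩

theorem vtx_inY (g : F2) : InY (vtx g) := ⟨(g, false), 0, zero_mem_sq, vtx_eq_near (g, false)⟩

theorem InY.coord {y : Blk → ℝ × ℝ} (hy : InY y) (b : Blk) : y b ∈ sq := by
  obtain ⟨b₀, u, hu, rfl⟩ := hy
  by_cases h : b = b₀
  · subst h; simpa using hu
  · rw [pt_ne _ h]; exact vtx_mem_sq _ _

theorem finite_ne {y z : Blk → ℝ × ℝ} (hy : InY y) (hz : InY z) : {b | y b ≠ z b}.Finite := by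
  obtain ⟨b, u, hu, rfl⟩ := hy
  obtain ⟨b', u', hu', rfl⟩ := hz
  apply ((finite_side b.1 b'.1).union (Set.toFinite {b, b'})).subset
  intro e he
  by_cases h1 : e = b
  · right; simp [h1]
  by_cases h2 : e = b'
  · right; simp [h2]
  left
  simp only [Set.mem_ofPred_eq, pt_ne _ h1, pt_ne _ h2] at he ⊢
  rwa [Ne, vtx_eq_iff] at he

/-- `w` lies between `x` and `z`, blockwise. -/
def Btw (x w z : Blk → ℝ × ℝ) : Prop := ∀ e, w e = x e ∨ w e = z e

theorem Btw.symm {x w z : Blk → ℝ × ℝ} (h : Btw x w z) : Btw z w x := fun e => (h e).symm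

theorem realize {b₀ : Blk} {u₀ : ℝ × ℝ} (g : F2) :
    ∃ h, (∀ e, pt b₀ u₀ e ≠ vtx g e → side h e ≠ side g e) ∧ ∀ e, e ≠ b₀ → pt b₀ u₀ e = vtx h e := by
  obtain ⟨h, hh, h1⟩ : ∃ h, (∀ e, e ≠ b₀ → vtx b₀.1 e = vtx h e) ∧ side h b₀ ≠ side g b₀ := by
    cases hg : side g b₀
    · refine ⟨far b₀, fun e he => (vtx_far_ne he).symm, ?_⟩
      rw [side_far, if_pos rfl]; simp
    · refine ⟨b₀.1, fun e he => rfl, ?_⟩
      rw [side_near]; simp
  refine ⟨h, fun e he => ?_, fun e he => ?_⟩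
  · by_cases h2 : e = b₀
    · rw [h2]; exact h1
    · rw [pt_ne _ h2, hh e h2] at he
      rwa [Ne, vtx_eq_iff] at he
  · rw [pt_ne _ he, hh e he]

/-- The block `b` through `pt b u` and `pt b v`: if `z` has coordinate `v` in the block `b`, then
`pt b v` separates `pt b u` from `z`. -/
theorem cut {b : Blk} {u v : ℝ × ℝ} {z x : Blk → ℝ × ℝ} (hz : InY z) (hx : InY x) (hzv : z b = v) :
    Btw x (pt b v) (pt b u) ∨ Btw x (pt b v) z := by
  by_cases hxv : x b = v
  · left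
    intro e
    by_cases he : e = b
    · left; rw [he, pt_same, hxv]
    · right; rw [pt_ne _ he, pt_ne _ he]
  right
  by_cases hzw : z = pt b v
  · intro e; right; rw [hzw]
  obtain ⟨bz, uz, _, rfl⟩ := hz
  obtain ⟨bx, ux, _, rfl⟩ := hx
  have hb : b ≠ bz := by
    rintro rfl
    apply hzw
    rw [pt_same] at hzv
    rw [hzv]
  rw [pt_ne _ hb] at hzv
  obtain ⟨g, hg, hw⟩ : ∃ g, (g = b.1 ∨ g = far b) ∧ pt b v = vtx g := by
    cases h : side bz.1 b
    · refine ⟨b.1, Or.inl rfl, ?_⟩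
      rw [vtx_eq_near, ← hzv]
      simp [vtx, h]
    · refine ⟨far b, Or.inr rfl, ?_⟩
      rw [vtx_eq_far, ← hzv]
      simp [vtx, h]
  obtain ⟨hX, hX1, hX2⟩ := realize (b₀ := bx) (u₀ := ux) g
  obtain ⟨hZ, hZ1, hZ2⟩ := realize (b₀ := bz) (u₀ := uz) g
  have hgb : vtx g b = v := by rw [← hw, pt_same]
  intro e
  by_cases he : e = b
  · right; rw [he, pt_same, pt_ne _ hb, hzv]
  by_contra hcon
  push Not at hcon
  rw [hw] at hcon
  refine no_four (fun h => he h.symm) hg (h := hX) (h' := hZ) (hX1 b ?_) (hX1 e hcon.1.symm) ?_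
    (hZ1 e hcon.2.symm)
  · rw [hgb]; exact hxv
  · rw [← vtx_eq_iff, ← hZ2 b hb, pt_ne _ hb, hzv, hgb]

/-- For `y ≠ z` there is a block containing `y` in the direction of `z`. -/
theorem exists_dir {y z : Blk → ℝ × ℝ} (hy : InY y) (hz : InY z) (hne : y ≠ z) :
    ∃ b, ∃ u ∈ sq, y = pt b u ∧ u ≠ z b := by
  obtain ⟨b₀, u₀, hu₀, rfl⟩ := hy
  by_cases h1 : u₀ = z b₀
  swap
  · exact ⟨b₀, u₀, hu₀, rfl, h1⟩
  obtain ⟨bz, uz, huz, rfl⟩ := hz
  have hb : b₀ ≠ bz := by
    rintro rfl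
    apply hne
    rw [h1, pt_same]
  rw [pt_ne _ hb] at h1
  obtain ⟨g, hw⟩ : ∃ g, pt b₀ u₀ = vtx g := by
    cases h : side bz.1 b₀
    · refine ⟨b₀.1, ?_⟩
      rw [vtx_eq_near, h1]
      simp [vtx, h]
    · refine ⟨far b₀, ?_⟩
      rw [vtx_eq_far, h1]
      simp [vtx, h]
  rw [hw] at hne ⊢
  by_cases hg1 : g = bz.1
  · refine ⟨bz, 0, zero_mem_sq, by rw [hg1, vtx_eq_near], ?_⟩
    rw [pt_same]
    rintro rfl
    apply hne
    rw [hg1, vtx_eq_near]
  by_cases hg2 : g = far bz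
  · refine ⟨bz, corner bz.2, corner_mem _, by rw [hg2, vtx_eq_far], ?_⟩
    rw [pt_same]
    rintro rfl
    apply hne
    rw [hg2, vtx_eq_far]
  rcases exists_step hg1 with ⟨c, hc⟩ | ⟨c, hc⟩
  · refine ⟨(g, c), 0, zero_mem_sq, vtx_eq_near (g, c), ?_⟩
    have hne' : ((g, c) : Blk) ≠ bz := by
      rintro rfl; exact hg1 rfl
    rw [pt_ne _ hne']
    simp only [vtx, hc, if_true]
    exact (corner_ne _).symm
  · refine ⟨(g * (of c)⁻¹, c), corner c, corner_mem _, ?_, ?_⟩
    · have := vtx_eq_far (g * (of c)⁻¹, c)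
      simpa [far] using this
    · have hne' : ((g * (of c)⁻¹, c) : Blk) ≠ bz := by
        rintro rfl
        apply hg2
        simp [far]
      rw [pt_ne _ hne']
      simp only [vtx, hc]
      exact corner_ne _

/-- Induction along the path from `y` to `z`. -/
theorem Y_induction {Q : (Blk → ℝ × ℝ) → (Blk → ℝ × ℝ) → Prop}
    (refl : ∀ y, InY y → Q y y)
    (step : ∀ b u v z, u ∈ sq → v ∈ sq → u ≠ v → InY z → z b = v →
      Q (pt b v) z → Q (pt b u) z) {y z : Blk → ℝ × ℝ} (hy : InY y) (hz : InY z) : Q y z := by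
  suffices H : ∀ (n : ℕ) (y z : Blk → ℝ × ℝ), InY y → InY z → {b | y b ≠ z b}.ncard ≤ n → Q y z from
    H _ y z hy hz le_rfl
  intro n
  induction n with
  | zero =>
    intro y z hy hz hc
    rw [Nat.le_zero, Set.ncard_eq_zero (finite_ne hy hz)] at hc
    have : y = z := by
      ext1 b
      by_contra h
      have h' : b ∈ ({b | y b ≠ z b} : Set Blk) := h
      rw [hc] at h'
      exact h'
    rw [this]; exact refl z hz
  | succ n ih =>
    intro y z hy hz hc
    by_cases hyz : y = z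
    · rw [hyz]; exact refl z hz
    obtain ⟨b, u, hu, rfl, hne⟩ := exists_dir hy hz hyz
    apply step b u (z b) z hu (hz.coord b) hne hz rfl
    apply ih _ _ (pt_mem (hz.coord b)) hz
    have hlt : ({x | pt b (z b) x ≠ z x} : Set Blk).ncard <
        ({x | pt b u x ≠ z x} : Set Blk).ncard := by
      apply Set.ncard_lt_ncard _ (finite_ne hy hz)
      rw [Set.ssubset_iff_of_subset]
      · exact ⟨b, by simpa using hne, by simp⟩
      · intro x hx
        by_cases hxb : x = b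
        · subst hxb; simp at hx
        · simpa [pt_ne _ hxb] using hx
    omega

end Pool.Agent.TH588
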