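import Mathlib
import Pool.Agent.TH588.Space

set_option autoImplicit false

/-! The `ℓ^p` metric on the tree of squares. -/

namespace Pool.Agent.TH588

/-- The `ℓ^p` norm on `ℝ × ℝ`. -/
noncomputable def nrm (p : ℝ) (u : ℝ × ℝ) : ℝ := nrm2 p u.1 u.2

theorem nrm_nonneg (p : ℝ) (u : ℝ × ℝ) : 0 ≤ nrm p u := nrm2_nonneg _ _ _

theorem nrm_zero {p : ℝ} (hp : 1 ≤ p) : nrm p 0 = 0 := nrm2_zero hp

theorem nrm_neg (p : ℝ) (u : ℝ × ℝ) : nrm p (-u) = nrm p u := nrm2_neg _ _ _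

theorem nrm_sub_comm (p : ℝ) (u v : ℝ × ℝ) : nrm p (u - v) = nrm p (v - u) := by
  rw [← nrm_neg, neg_sub]

theorem nrm_add_le {p : ℝ} (hp : 1 ≤ p) (u v : ℝ × ℝ) : nrm p (u + v) ≤ nrm p u + nrm p v :=
  nrm2_add_le hp _ _ _ _

theorem nrm_eq_zero {p : ℝ} (hp : 1 ≤ p) {u : ℝ × ℝ} (h : nrm p u = 0) : u = 0 :=
  Prod.ext (nrm2_eq_zero hp h).1 (nrm2_eq_zero hp h).2

theorem nrm_smul {p : ℝ} (hp : 1 ≤ p) (t : ℝ) (u : ℝ × ℝ) : nrm p (t • u) = |t| * nrm p u :=
  nrm2_smul hp t u.1 u.2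

/-- The `ℓ^p` metric on the tree of squares. -/
noncomputable def D (p : ℝ) (y z : Blk → ℝ × ℝ) : ℝ := ∑ᶠ b, nrm p (y b - z b)

section

variable {p : ℝ} (hp : 1 ≤ p)

include hp

theorem supp_finite {y z : Blk → ℝ × ℝ} (hy : InY y) (hz : InY z) :
    (Function.support fun b => nrm p (y b - z b)).Finite := by
  apply (finite_ne hy hz).subset
  intro b hb h
  apply hb
  simp [h, nrm_zero hp]

omit hp in
theorem D_nonneg (y z : Blk → ℝ × ℝ) : 0 ≤ D p y z :=
  finsum_nonneg fun _ => nrm_nonneg _ _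

theorem D_self (y : Blk → ℝ × ℝ) : D p y y = 0 := by
  unfold D
  simp [nrm_zero hp]

omit hp in
theorem D_comm (y z : Blk → ℝ × ℝ) : D p y z = D p z y := by
  unfold D
  apply finsum_congr
  intro b
  exact nrm_sub_comm _ _ _

theorem D_triangle {y w z : Blk → ℝ × ℝ} (hy : InY y) (hw : InY w) (hz : InY z) :
    D p y z ≤ D p y w + D p w z := by
  unfold D
  rw [← finsum_add_distrib (supp_finite hp hy hw) (supp_finite hp hw hz)]
  apply finsum_le_finsum' (supp_finite hp hy hz)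
  · exact ((supp_finite hp hy hw).union (supp_finite hp hw hz)).subset
      (Function.support_add _ _)
  · intro b
    have h : y b - z b = (y b - w b) + (w b - z b) := by abel
    simp only [h]
    exact nrm_add_le hp _ _

theorem nrm_le_D {y z : Blk → ℝ × ℝ} (hy : InY y) (hz : InY z) (b : Blk) :
    nrm p (y b - z b) ≤ D p y z :=
  single_le_finsum b (supp_finite hp hy hz) fun _ => nrm_nonneg _ _

theorem D_eq_zero {y z : Blk → ℝ × ℝ} (hy : InY y) (hz : InY z) (h : D p y z = 0) : y = z := by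
  ext1 b
  have h1 := nrm_le_D hp hy hz b
  rw [h] at h1
  have h2 := nrm_eq_zero hp (le_antisymm h1 (nrm_nonneg _ _))
  exact sub_eq_zero.mp h2

theorem D_btw {y w z : Blk → ℝ × ℝ} (hy : InY y) (hw : InY w) (hz : InY z) (h : Btw y w z) :
    D p y z = D p y w + D p w z := by
  unfold D
  rw [← finsum_add_distrib (supp_finite hp hy hw) (supp_finite hp hw hz)]
  apply finsum_congr
  intro b
  rcases h b with h | h
  · simp [h, nrm_zero hp]
  · simp [h, nrm_zero hp]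

theorem D_pt (b : Blk) (u v : ℝ × ℝ) : D p (pt b u) (pt b v) = nrm p (u - v) := by
  unfold D
  rw [finsum_eq_single _ b]
  · simp
  · intro e he
    simp [pt_ne _ he, nrm_zero hp]

theorem D_proj {x : Blk → ℝ × ℝ} (hx : InY x) (b : Blk) {v : ℝ × ℝ} (hv : v ∈ sq) :
    D p x (pt b v) = D p x (pt b (x b)) + nrm p (x b - v) := by
  rw [← D_pt hp b (x b) v]
  apply D_btw hp hx (pt_mem (hx.coord b)) (pt_mem hv)
  intro e
  by_cases he : e = b
  · left; rw [he, pt_same]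
  · right; rw [pt_ne _ he, pt_ne _ he]

omit hp in
/-- The point `pt b v` with `v = z b` lies between `pt b u` and `z`. -/
theorem btw_step {b : Blk} {u v : ℝ × ℝ} {z : Blk → ℝ × ℝ} (hzv : z b = v) :
    Btw (pt b u) (pt b v) z := by
  intro e
  by_cases he : e = b
  · right; rw [he, pt_same, hzv]
  · left; rw [pt_ne _ he, pt_ne _ he]

end

theorem sq_combo {u v : ℝ × ℝ} (hu : u ∈ sq) (hv : v ∈ sq) {t : ℝ} (h0 : 0 ≤ t) (h1 : t ≤ 1) :
    u + t • (v - u) ∈ sq := by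
  obtain ⟨⟨a1, a2⟩, a3, a4⟩ := hu
  obtain ⟨⟨b1, b2⟩, b3, b4⟩ := hv
  simp only [sq, Set.mem_ofPred_eq, Prod.fst_add, Prod.snd_add, Prod.smul_fst, Prod.smul_snd,
    Prod.fst_sub, Prod.snd_sub, smul_eq_mul]
  refine ⟨⟨by nlinarith, by nlinarith⟩, by nlinarith, by nlinarith⟩

/-- Unit speed geodesics of `Y`. -/
def UnitGeo (p : ℝ) (y z : Blk → ℝ × ℝ) (γ : ℝ → Blk → ℝ × ℝ) : Prop :=
  (∀ t, InY (γ t)) ∧ γ 0 = y ∧ γ (D p y z) = z ∧
    ∀ s ∈ Set.Icc 0 (D p y z), ∀ t ∈ Set.Icc 0 (D p y z), D p (γ s) (γ t) = |s - t|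

/-- The CAT(0) inequality for the geodesic `γ` from `y` to `z`. -/
def Cat (y z : Blk → ℝ × ℝ) (γ : ℝ → Blk → ℝ × ℝ) : Prop :=
  ∀ x, InY x → ∀ s ∈ Set.Icc 0 (D 2 y z), D 2 y z * D 2 x (γ s) ^ 2 ≤
    (D 2 y z - s) * D 2 x y ^ 2 + s * D 2 x z ^ 2 - s * (D 2 y z - s) * D 2 y z

theorem nrm_two_sq (u : ℝ × ℝ) : nrm 2 u ^ 2 = u.1 ^ 2 + u.2 ^ 2 := by
  have h := nrm2_rpow (p := 2) (by norm_num) u.1 u.2
  have h2 : ((2 : ℕ) : ℝ) = 2 := by norm_num
  rw [← h2] at h
  rw [Real.rpow_natCast, Real.rpow_natCast, Real.rpow_natCast, sq_abs, sq_abs, h2] at h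
  exact h

/-- The base case: straight segments in a square. -/
theorem cat_base {b : Blk} {u v : ℝ × ℝ} (hu : u ∈ sq) (hv : v ∈ sq) {x : Blk → ℝ × ℝ}
    (hx : InY x) {a s : ℝ} (ha : a = nrm 2 (u - v)) (ha0 : 0 < a) (hs : 0 ≤ s) (hsa : s ≤ a) :
    a * D 2 x (pt b (u + (s / a) • (v - u))) ^ 2 ≤
      (a - s) * D 2 x (pt b u) ^ 2 + s * D 2 x (pt b v) ^ 2 - s * (a - s) * a := by
  have h2 : (1 : ℝ) ≤ 2 := by norm_num
  have ht0 : 0 ≤ s / a := by positivity
  have ht1 : s / a ≤ 1 := by rw [div_le_one ha0]; exact hsa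
  rw [D_proj h2 hx b (sq_combo hu hv ht0 ht1), D_proj h2 hx b hu, D_proj h2 hx b hv]
  have hP : 0 ≤ D 2 x (pt b (x b)) := D_nonneg _ _
  set P := D 2 x (pt b (x b))
  set w := x b
  set t := s / a with ht
  have hst : s = t * a := by rw [ht]; field_simp
  have e1 : w - (u + t • (v - u)) = (1 - t) • (w - u) + t • (w - v) := by
    ext <;> simp <;> ring
  -- convexity
  have hconv : nrm 2 (w - (u + t • (v - u))) ≤ (1 - t) * nrm 2 (w - u) + t * nrm 2 (w - v) := by
    rw [e1]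
    refine (nrm_add_le h2 _ _).trans ?_
    rw [nrm_smul h2, nrm_smul h2, abs_of_nonneg ht0, abs_of_nonneg (by linarith : 0 ≤ 1 - t)]
  have hpar : nrm 2 (w - (u + t • (v - u))) ^ 2 =
      (1 - t) * nrm 2 (w - u) ^ 2 + t * nrm 2 (w - v) ^ 2 - t * (1 - t) * nrm 2 (u - v) ^ 2 := by
    simp only [nrm_two_sq]
    simp
    ring
  rw [← ha] at hpar
  set g := nrm 2 (w - (u + t • (v - u)))
  set g1 := nrm 2 (w - u)
  set g2 := nrm 2 (w - v)
  rw [hst]
  have key : (P + g) ^ 2 ≤ (1 - t) * (P + g1) ^ 2 + t * (P + g2) ^ 2 - t * (1 - t) * a ^ 2 := by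
    have h3 : P * g ≤ P * ((1 - t) * g1 + t * g2) := mul_le_mul_of_nonneg_left hconv hP
    nlinarith
  have h4 := mul_le_mul_of_nonneg_left key ha0.le
  nlinarith

theorem alg1 {a b s m W Z : ℝ} (ha : 0 < a) (hb : 0 ≤ b) (hs : 0 ≤ s) (hsa : s ≤ a) (hm0 : 0 ≤ m)
    (hm : m ≤ W + (a - s)) (hZ : (W - b) ^ 2 ≤ Z ^ 2) :
    (a + b) * m ^ 2 ≤ (a + b - s) * (W + a) ^ 2 + s * Z ^ 2 - s * (a + b - s) * (a + b) := by
  have h1 : m ^ 2 ≤ (W + (a - s)) ^ 2 := pow_le_pow_left₀ hm0 hm 2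
  have h2 := mul_le_mul_of_nonneg_left h1 (by linarith : 0 ≤ a + b)
  have h3 := mul_le_mul_of_nonneg_left hZ hs
  nlinarith

theorem alg2 {a b s m W Z : ℝ} (ha : 0 < a) (hb : 0 < b) (hsa : a ≤ s) (hsL : s ≤ a + b)
    (hm : b * m ^ 2 ≤ (b - (s - a)) * W ^ 2 + (s - a) * Z ^ 2 - (s - a) * (b - (s - a)) * b)
    (hZ : (W - b) ^ 2 ≤ Z ^ 2) :
    (a + b) * m ^ 2 ≤ (a + b - s) * (W + a) ^ 2 + s * Z ^ 2 - s * (a + b - s) * (a + b) := by
  have h1 := mul_le_mul_of_nonneg_left hm (by linarith : 0 ≤ a + b)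
  have h2 : 0 ≤ a * (a + b - s) := mul_nonneg ha.le (by linarith)
  have h3 := mul_le_mul_of_nonneg_left hZ h2
  have h4 : b * ((a + b) * m ^ 2) ≤ b * ((a + b - s) * (W + a) ^ 2 + s * Z ^ 2 -
      s * (a + b - s) * (a + b)) := by
    nlinarith
  exact le_of_mul_le_mul_left h4 hb

theorem alg3 {a b s m W P : ℝ} (ha : 0 < a) (hb : 0 ≤ b) (hs : 0 ≤ s)
    (hm : a * m ^ 2 ≤ (a - s) * P ^ 2 + s * W ^ 2 - s * (a - s) * a)
    (hP : (W - a) ^ 2 ≤ P ^ 2) :
    (a + b) * m ^ 2 ≤ (a + b - s) * P ^ 2 + s * (W + b) ^ 2 - s * (a + b - s) * (a + b) := by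
  have h1 := mul_le_mul_of_nonneg_left hm (by linarith : 0 ≤ a + b)
  have h3 := mul_le_mul_of_nonneg_left hP (mul_nonneg hb hs)
  have h4 : a * ((a + b) * m ^ 2) ≤ a * ((a + b - s) * P ^ 2 + s * (W + b) ^ 2 -
      s * (a + b - s) * (a + b)) := by
    nlinarith
  exact le_of_mul_le_mul_left h4 ha

theorem alg4 {a b s m W P : ℝ} (ha : 0 < a) (hb : 0 ≤ b) (hsL : s ≤ a + b)
    (hm0 : 0 ≤ m) (hm : m ≤ W + (s - a)) (hP : (W - a) ^ 2 ≤ P ^ 2) :
    (a + b) * m ^ 2 ≤ (a + b - s) * P ^ 2 + s * (W + b) ^ 2 - s * (a + b - s) * (a + b) := by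
  have h1 : m ^ 2 ≤ (W + (s - a)) ^ 2 := pow_le_pow_left₀ hm0 hm 2
  have h2 := mul_le_mul_of_nonneg_left h1 (by linarith : 0 ≤ a + b)
  have h3 := mul_le_mul_of_nonneg_left hP (by linarith : (0 : ℝ) ≤ a + b - s)
  nlinarith

theorem exists_geo {p : ℝ} (hp : 1 ≤ p) {y z : Blk → ℝ × ℝ} (hy : InY y) (hz : InY z) :
    ∃ γ, UnitGeo p y z γ ∧ (p = 2 → Cat y z γ) := by
  revert hy hz
  intro hy hz
  refine Y_induction (Q := fun y z => ∃ γ, UnitGeo p y z γ ∧ (p = 2 → Cat y z γ)) ?_ ?_ hy hz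
  · intro y hy
    refine ⟨fun _ => y, ⟨fun _ => hy, rfl, rfl, ?_⟩, ?_⟩
    · intro s hs t ht
      rw [D_self hp] at hs ht ⊢
      have h1 : s = 0 := le_antisymm hs.2 hs.1
      have h2 : t = 0 := le_antisymm ht.2 ht.1
      rw [h1, h2]; simp
    · intro h2 x hx s hs
      subst h2
      rw [D_self hp] at hs ⊢
      have h1 : s = 0 := le_antisymm hs.2 hs.1
      rw [h1]; simp
  · rintro b u v z hu hv huv hz hzv ⟨γ₂, ⟨hγY, hγ0, hγ1, hγd⟩, hcat⟩
    have hw : InY (pt b v) := pt_mem hv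
    have hyY : InY (pt b u) := pt_mem hu
    have hL : D p (pt b u) z = D p (pt b u) (pt b v) + D p (pt b v) z :=
      D_btw hp hyY hw hz (btw_step hzv)
    have haD : D p (pt b u) (pt b v) = nrm p (u - v) := D_pt hp b u v
    have ha0 : 0 < nrm p (u - v) := by
      rcases eq_or_lt_of_le (nrm_nonneg p (u - v)) with h | h
      · exact absurd (sub_eq_zero.mp (nrm_eq_zero hp h.symm)) huv
      · exact h
    rw [haD] at hL
    set a := nrm p (u - v) with ha
    set b' := D p (pt b v) z with hb'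
    have hb0 : 0 ≤ b' := D_nonneg _ _
    set L := D p (pt b u) z with hLdef
    -- the concatenated path
    let cl : ℝ → ℝ := fun s => max 0 (min 1 (s / a))
    have hcl : ∀ s, 0 ≤ cl s ∧ cl s ≤ 1 := fun s =>
      ⟨le_max_left _ _, max_le zero_le_one (min_le_left _ _)⟩
    have hcl' : ∀ s, 0 ≤ s → s ≤ a → cl s = s / a := by
      intro s h0 h1
      have : s / a ≤ 1 := by rw [div_le_one ha0]; exact h1
      simp only [cl]
      rw [min_eq_right this, max_eq_right (by positivity)]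
    let γ₁ : ℝ → Blk → ℝ × ℝ := fun s => pt b (u + (cl s) • (v - u))
    let γ : ℝ → Blk → ℝ × ℝ := fun s => if s ≤ a then γ₁ s else γ₂ (s - a)
    have hγ₁Y : ∀ s, InY (γ₁ s) := fun s => pt_mem (sq_combo hu hv (hcl s).1 (hcl s).2)
    have hγYY : ∀ s, InY (γ s) := by
      intro s
      simp only [γ]
      split_ifs
      · exact hγ₁Y s
      · exact hγY _
    have hγ₁a : γ₁ a = pt b v := by
      simp only [γ₁]
      rw [hcl' a ha0.le le_rfl, div_self ha0.ne']
      congr 1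
      simp
    have hγ₁0 : γ₁ 0 = pt b u := by
      simp only [γ₁]
      rw [hcl' 0 le_rfl ha0.le]
      congr 1
      simp
    -- distances on the first part
    have hd1 : ∀ s ∈ Set.Icc 0 a, ∀ t ∈ Set.Icc 0 a, D p (γ₁ s) (γ₁ t) = |s - t| := by
      intro s hs t ht
      simp only [γ₁]
      rw [hcl' s hs.1 hs.2, hcl' t ht.1 ht.2, D_pt hp]
      have : u + (s / a) • (v - u) - (u + (t / a) • (v - u)) = ((t - s) / a) • (u - v) := by
        ext <;> simp <;> ring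
      rw [this, nrm_smul hp, ← ha, abs_div, abs_of_pos ha0, abs_sub_comm]
      field_simp
    -- distance on the whole
    have hγ_le : ∀ s, s ≤ a → γ s = γ₁ s := fun s h => by simp only [γ, if_pos h]
    have hγ_ge : ∀ s, a ≤ s → γ s = γ₂ (s - a) := by
      intro s h
      rcases eq_or_lt_of_le h with h | h
      · rw [hγ_le s h.symm.le, ← h, hγ₁a, sub_self, hγ0]
      · simp only [γ, if_neg (not_le.mpr h)]
    have hd2 : ∀ s ∈ Set.Icc a L, ∀ t ∈ Set.Icc a L, D p (γ s) (γ t) = |s - t| := by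
      intro s hs t ht
      rw [hγ_ge s hs.1, hγ_ge t ht.1, hγd (s - a) ⟨by linarith [hs.1], by linarith [hs.2]⟩
        (t - a) ⟨by linarith [ht.1], by linarith [ht.2]⟩]
      congr 1
      ring
    have hγL : γ L = z := by
      rw [hγ_ge L (by linarith), ← hγ1]
      congr 1
      linarith
    have hγ00 : γ 0 = pt b u := by rw [hγ_le 0 ha0.le, hγ₁0]
    have hmix : ∀ s, 0 ≤ s → s ≤ a → ∀ t, a ≤ t → t ≤ L → D p (γ s) (γ t) = t - s := by
      intro s hs0 hsa t hta htL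
      have hγa : γ a = pt b v := by rw [hγ_le a le_rfl, hγ₁a]
      have h1 : D p (γ s) (γ a) = a - s := by
        rw [hγ_le s hsa, hγ_le a le_rfl, hd1 s ⟨hs0, hsa⟩ a ⟨ha0.le, le_rfl⟩, abs_sub_comm,
          abs_of_nonneg (by linarith)]
      have h2 : D p (γ a) (γ t) = t - a := by
        rw [hd2 a ⟨le_rfl, by linarith⟩ t ⟨hta, htL⟩, abs_sub_comm, abs_of_nonneg (by linarith)]
      have h3 : D p (γ 0) (γ s) = s := by
        rw [hγ_le s hsa, hγ_le 0 ha0.le, hd1 0 ⟨le_rfl, ha0.le⟩ s ⟨hs0, hsa⟩, zero_sub, abs_neg,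
          abs_of_nonneg hs0]
      have h4 : D p (γ t) (γ L) = L - t := by
        rw [hd2 t ⟨hta, htL⟩ L ⟨by linarith, le_rfl⟩, abs_sub_comm, abs_of_nonneg (by linarith)]
      have h5 := D_triangle hp (hγYY s) (hγYY a) (hγYY t)
      have h6 := D_triangle hp (hγYY 0) (hγYY s) (hγYY L)
      have h7 := D_triangle hp (hγYY s) (hγYY t) (hγYY L)
      have h8 : D p (γ 0) (γ L) = L := by rw [hγ00, hγL]
      linarith
    refine ⟨γ, ⟨hγYY, hγ00, hγL, ?_⟩, ?_⟩
    · intro s hs t ht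
      rcases le_total s a with h1 | h1 <;> rcases le_total t a with h2 | h2
      · rw [hγ_le s h1, hγ_le t h2]
        exact hd1 s ⟨hs.1, h1⟩ t ⟨ht.1, h2⟩
      · rw [hmix s hs.1 h1 t h2 ht.2, abs_sub_comm, abs_of_nonneg (by linarith)]
      · rw [D_comm, hmix t ht.1 h2 s h1 hs.2, abs_of_nonneg (by linarith)]
      · exact hd2 s ⟨h1, hs.2⟩ t ⟨h2, ht.2⟩
    · intro hp2 x hx s hs
      subst hp2
      have hcat := hcat rfl
      have hLa : L = a + b' := hL
      have hL0 : 0 < L := by linarith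
      have hP0 : 0 ≤ D 2 x (pt b u) := D_nonneg _ _
      have hW0 : 0 ≤ D 2 x (pt b v) := D_nonneg _ _
      have hZ0 : 0 ≤ D 2 x z := D_nonneg _ _
      have hbase : ∀ s, 0 ≤ s → s ≤ a → a * D 2 x (γ s) ^ 2 ≤ (a - s) * D 2 x (pt b u) ^ 2 +
          s * D 2 x (pt b v) ^ 2 - s * (a - s) * a := by
        intro s h0 h1
        rw [hγ_le s h1]
        simp only [γ₁]
        rw [hcl' s h0 h1]
        exact cat_base hu hv hx ha ha0 h0 h1
      have hind : ∀ s, a ≤ s → s ≤ L → b' * D 2 x (γ s) ^ 2 ≤ (b' - (s - a)) * D 2 x (pt b v) ^ 2 +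
          (s - a) * D 2 x z ^ 2 - (s - a) * (b' - (s - a)) * b' := by
        intro s h0 h1
        rw [hγ_ge s h0]
        exact hcat x hx (s - a) ⟨by linarith, by linarith⟩
      -- triangle inequalities
      have t1 : D 2 x (pt b v) ≤ D 2 x (pt b u) + a := by
        have := D_triangle hp hx hyY hw
        rw [haD] at this; exact this
      have t2 : a ≤ D 2 x (pt b u) + D 2 x (pt b v) := by
        have := D_triangle hp hyY hx hw
        rw [D_comm (pt b u) x, haD] at this; exact this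
      have t3 : D 2 x (pt b v) ≤ D 2 x z + b' := by
        have := D_triangle hp hx hz hw
        rw [D_comm z] at this; exact this
      have t4 : b' ≤ D 2 x (pt b v) + D 2 x z := by
        have := D_triangle hp hw hx hz
        rw [D_comm (pt b v) x] at this; exact this
      have hX0 : 0 ≤ D 2 x (γ s) := D_nonneg _ _
      have hWb : (D 2 x (pt b v) - b') ^ 2 ≤ D 2 x z ^ 2 := by
        apply sq_le_sq' <;> linarith
      have hWa : (D 2 x (pt b v) - a) ^ 2 ≤ D 2 x (pt b u) ^ 2 := by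
        apply sq_le_sq' <;> linarith
      have hsL : s ≤ a + b' := by rw [← hLa]; exact hs.2
      have hs0 := hs.1
      change L * _ ≤ (L - s) * _ + _ - s * (L - s) * L
      rcases cut (u := u) hz hx hzv with hc | hc
      · -- x is not on the side of `pt b u`
        have e1 : D 2 x (pt b u) = D 2 x (pt b v) + a := by
          rw [D_btw hp hx hw hyY hc, D_comm (pt b v) (pt b u), haD]
        rw [e1, hLa]
        rcases le_total s a with h1 | h1
        · have t5 : D 2 x (γ s) ≤ D 2 x (pt b v) + (a - s) := by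
            have h5 := D_triangle hp hx hw (hγYY s)
            have h6 := hd1 s ⟨hs.1, h1⟩ a ⟨ha0.le, le_rfl⟩
            rw [hγ₁a, abs_sub_comm, abs_of_nonneg (by linarith)] at h6
            rw [D_comm (pt b v), hγ_le s h1, h6] at h5
            rw [hγ_le s h1]
            exact h5
          exact alg1 ha0 hb0 hs0 h1 hX0 t5 hWb
        · rcases eq_or_lt_of_le hb0 with hb | hb
          · have hsa : s = a := by linarith
            have hm0 : γ s = pt b v := by rw [hγ_ge s h1, hsa, sub_self, hγ0]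
            have hzw : pt b v = z := D_eq_zero hp hw hz hb.symm
            rw [hm0, ← hzw, ← hb, hsa]
            nlinarith
          · exact alg2 ha0 hb h1 hsL (hind s h1 hs.2) hWb
      · -- x is not on the side of `z`
        have e1 : D 2 x z = D 2 x (pt b v) + b' := D_btw hp hx hw hz hc
        rw [e1, hLa]
        rcases le_total s a with h1 | h1
        · exact alg3 ha0 hb0 hs0 (hbase s hs.1 h1) hWa
        · have t5 : D 2 x (γ s) ≤ D 2 x (pt b v) + (s - a) := by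
            have h5 := D_triangle hp hx (hγYY a) (hγYY s)
            have hγa : γ a = pt b v := by rw [hγ_le a le_rfl, hγ₁a]
            rw [hd2 a ⟨le_rfl, by linarith⟩ s ⟨h1, hs.2⟩, abs_sub_comm,
              abs_of_nonneg (by linarith), hγa] at h5
            exact h5
          exact alg4 ha0 hb0 hsL hX0 t5 hWa

end Pool.Agent.TH588
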