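import Mathlib
import Pool.Agent.TH588.Defs
import Pool.Agent.TH588.Dist

set_option autoImplicit false

/-! Uniqueness of geodesics, and the product of the tree of squares with a line. -/

namespace Pool.Agent.TH588

theorem uniq {p : ℝ} (hp : 1 < p) {y z : Blk → ℝ × ℝ} (hy : InY y) (hz : InY z) :
    ∀ m m', InY m → InY m' → D p y m = D p y m' → D p y m + D p m z = D p y z →
      D p y m' + D p m' z = D p y z → m = m' := by
  have hp1 : 1 ≤ p := hp.le
  refine Y_induction (Q := fun y z => ∀ m m', InY m → InY m' → D p y m = D p y m' →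
    D p y m + D p m z = D p y z → D p y m' + D p m' z = D p y z → m = m') ?_ ?_ hy hz
  · intro y hy m m' hm hm' _ h2 h3
    rw [D_self hp1] at h2 h3
    have h4 := D_nonneg (p := p) y m
    have h5 := D_nonneg (p := p) m y
    have h6 := D_nonneg (p := p) y m'
    have h7 := D_nonneg (p := p) m' y
    rw [← D_eq_zero hp1 hy hm (by linarith), ← D_eq_zero hp1 hy hm' (by linarith)]
  · intro b u v z hu hv huv hz hzv ih
    have hw : InY (pt b v) := pt_mem hv
    have hyY : InY (pt b u) := pt_mem hu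
    have hL : D p (pt b u) z = D p (pt b u) (pt b v) + D p (pt b v) z :=
      D_btw hp1 hyY hw hz (btw_step hzv)
    have haD : D p (pt b u) (pt b v) = nrm p (u - v) := D_pt hp1 b u v
    have ha0 : 0 < nrm p (u - v) := by
      rcases eq_or_lt_of_le (nrm_nonneg p (u - v)) with h | h
      · exact absurd (sub_eq_zero.mp (nrm_eq_zero hp1 h.symm)) huv
      · exact h
    rw [haD] at hL
    set a := nrm p (u - v) with ha
    have key : ∀ m, InY m → D p (pt b u) m + D p m z = D p (pt b u) z →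
        (a ≤ D p (pt b u) m ∧ D p (pt b v) m = D p (pt b u) m - a ∧
          D p (pt b v) m + D p m z = D p (pt b v) z) ∨
        (D p (pt b u) m ≤ a ∧ m = pt b (u + (D p (pt b u) m / a) • (v - u))) := by
      intro m hm hmz
      rcases cut (u := u) hz hm hzv with hc | hc
      · left
        have h1 := D_btw hp1 hm hw hyY hc
        rw [D_comm m (pt b u), D_comm m (pt b v), D_comm (pt b v) (pt b u), haD] at h1
        have h2 := D_nonneg (p := p) (pt b v) m
        exact ⟨by linarith, by linarith, by linarith⟩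
      · right
        have h1 := D_btw hp1 hm hw hz hc
        have h2 := D_proj hp1 hm b hu
        have h3 := D_proj hp1 hm b hv
        have h4 := D_nonneg (p := p) m (pt b (m b))
        have h5 : a ≤ nrm p (m b - u) + nrm p (v - m b) := by
          have := nrm_add_le hp1 (m b - u) (v - m b)
          have e : m b - u + (v - m b) = -(u - v) := by abel
          rw [e, nrm_neg, ← ha] at this
          exact this
        rw [nrm_sub_comm p (m b) v] at h3
        rw [D_comm (pt b u) m] at hmz ⊢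
        have hE : D p m (pt b (m b)) = 0 := by linarith
        have hmm : m = pt b (m b) := D_eq_zero hp1 hm (pt_mem (hm.coord b)) hE
        rw [hE, zero_add] at h2 h3
        have h6 : nrm p (m b - u) + nrm p (v - m b) = a := by linarith
        refine ⟨by linarith [nrm_nonneg p (v - m b)], ?_⟩
        have h7 := nrm2_add_eq hp (a := (m b - u).1) (b := (m b - u).2) (a' := (v - m b).1)
          (b' := (v - m b).2) (by
            have e : m b - u + (v - m b) = -(u - v) := by abel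
            have e2 : nrm2 p ((m b - u).1 + (v - m b).1) ((m b - u).2 + (v - m b).2) = a := by
              rw [ha, ← nrm_neg, ← e]; rfl
            rw [e2, ← h6]; exact le_rfl)
        change nrm p (v - m b) * _ = nrm p (m b - u) * _ ∧
          nrm p (v - m b) * _ = nrm p (m b - u) * _ at h7
        have h8 : nrm p (v - m b) = a - nrm p (m b - u) := by linarith
        rw [h8, ← h2] at h7
        conv_lhs => rw [hmm]
        congr 1
        have h9 : (D p m (pt b u) / a) * a = D p m (pt b u) := by field_simp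
        set s := D p m (pt b u)
        obtain ⟨h10, h11⟩ := h7
        simp only [Prod.fst_sub, Prod.snd_sub] at h10 h11
        ext
        · simp only [Prod.fst_add, Prod.smul_fst, Prod.fst_sub, smul_eq_mul]
          field_simp
          linarith
        · simp only [Prod.snd_add, Prod.smul_snd, Prod.snd_sub, smul_eq_mul]
          field_simp
          linarith
    intro m m' hm hm' h1 h2 h3
    have hww : pt b (u + (a / a) • (v - u)) = pt b v := by
      rw [div_self ha0.ne']; congr 1; simp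
    rcases key m hm h2 with ⟨k1, k2, k3⟩ | ⟨k1, k2⟩ <;>
      rcases key m' hm' h3 with ⟨l1, l2, l3⟩ | ⟨l1, l2⟩
    · exact ih m m' hm hm' (by rw [k2, l2, h1]) k3 l3
    · have hs : D p (pt b u) m = a := le_antisymm (by rw [h1]; exact l1) k1
      have h5 : pt b v = m := D_eq_zero hp1 hw hm (by rw [k2, hs]; ring)
      rw [l2, ← h1, hs, hww, h5]
    · have hs : D p (pt b u) m' = a := le_antisymm (by rw [← h1]; exact k1) l1
      have h5 : pt b v = m' := D_eq_zero hp1 hw hm' (by rw [l2, hs]; ring)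
      rw [k2, h1, hs, hww, h5]
    · rw [k2, l2, h1]

/-- The space `X = Y × ℝ`. -/
abbrev XX : Type := {x : (Blk → ℝ × ℝ) × ℝ // InY x.1}

/-- The `ℓ^p` metric on `X`. -/
noncomputable def DX (p : ℝ) (x y : XX) : ℝ := nrm2 p (D p x.1.1 y.1.1) (x.1.2 - y.1.2)

theorem DX_isMetric {p : ℝ} (hp : 1 ≤ p) : IsMetric (DX p) := by
  refine ⟨fun x y => nrm2_nonneg _ _ _, ?_, ?_, ?_⟩
  · rintro ⟨⟨y, s⟩, hy⟩ ⟨⟨z, t⟩, hz⟩
    constructor
    · intro h
      obtain ⟨h1, h2⟩ := nrm2_eq_zero hp h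
      apply Subtype.ext
      apply Prod.ext
      · exact D_eq_zero hp hy hz h1
      · exact sub_eq_zero.mp h2
    · intro h
      rw [h]
      simp [DX, D_self hp, nrm2_zero hp]
  · intro x y
    simp only [DX]
    rw [D_comm, ← nrm2_abs, abs_sub_comm, nrm2_abs]
  · intro x y z
    simp only [DX]
    have h1 : x.1.2 - z.1.2 = (x.1.2 - y.1.2) + (y.1.2 - z.1.2) := by ring
    rw [h1]
    refine le_trans (nrm2_mono hp (a' := D p x.1.1 y.1.1 + D p y.1.1 z.1.1) ?_ le_rfl)
      (nrm2_add_le hp _ _ _ _)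
    rw [abs_of_nonneg (D_nonneg _ _), abs_of_nonneg (add_nonneg (D_nonneg _ _) (D_nonneg _ _))]
    exact D_triangle hp x.2 y.2 z.2

theorem DX_geodesic {p : ℝ} (hp : 1 ≤ p) (x y : XX) :
    ∃ c, IsGeodesic (DX p) x y c ∧ (p = 2 → ∀ z, ∀ t ∈ Set.Icc (0 : ℝ) 1,
      DX p z (c t) ^ 2 ≤ (1 - t) * DX p z x ^ 2 + t * DX p z y ^ 2 - t * (1 - t) * DX p x y ^ 2) := by
  obtain ⟨⟨y₀, s₀⟩, hy₀⟩ := x
  obtain ⟨⟨y₁, s₁⟩, hy₁⟩ := y
  obtain ⟨γ, ⟨hγY, hγ0, hγ1, hγd⟩, hcat⟩ := exists_geo hp hy₀ hy₁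
  dsimp only at hy₀ hy₁ hγ0 hγ1 hγd hcat
  have hL := D_nonneg (p := p) y₀ y₁
  refine ⟨fun t => ⟨(γ (t * D p y₀ y₁), s₀ + t * (s₁ - s₀)), hγY _⟩, ⟨?_, ?_, ?_⟩, ?_⟩
  · apply Subtype.ext
    simp [hγ0]
  · apply Subtype.ext
    simp [hγ1]
  · intro s hs t ht
    simp only [DX]
    rw [hγd (s * D p y₀ y₁) ⟨mul_nonneg hs.1 hL, by nlinarith [hs.2]⟩ (t * D p y₀ y₁)
      ⟨mul_nonneg ht.1 hL, by nlinarith [ht.2]⟩, ← nrm2_smul hp, ← nrm2_abs,
      ← nrm2_abs p ((s - t) * _)]
    congr 1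
    · rw [abs_abs]; congr 1; ring
    · rw [← abs_neg]; congr 1; ring
  · intro hp2
    subst hp2
    have hcat := hcat rfl
    rintro ⟨⟨x, r⟩, hx⟩ t ht
    have hsq : ∀ a b : ℝ, nrm2 2 a b ^ 2 = a ^ 2 + b ^ 2 := fun a b => nrm_two_sq (a, b)
    simp only [DX, hsq]
    dsimp only at hx
    have h1 := hcat x hx (t * D 2 y₀ y₁) ⟨mul_nonneg ht.1 hL, by nlinarith [ht.2]⟩
    rcases eq_or_lt_of_le hL with h0 | h0
    · have e1 : y₀ = y₁ := D_eq_zero hp hy₀ hy₁ h0.symm
      rw [← h0, mul_zero, hγ0, ← e1]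
      nlinarith
    · have h2 : D 2 x (γ (t * D 2 y₀ y₁)) ^ 2 ≤ (1 - t) * D 2 x y₀ ^ 2 + t * D 2 x y₁ ^ 2 -
          t * (1 - t) * D 2 y₀ y₁ ^ 2 := by
        apply le_of_mul_le_mul_left _ h0
        linarith
      nlinarith

theorem DX_unique {p : ℝ} (hp : 1 < p) {x y : XX} {c : ℝ → XX} (hc : IsGeodesic (DX p) x y c)
    {t : ℝ} (ht : t ∈ Set.Icc (0 : ℝ) 1) :
    D p x.1.1 (c t).1.1 = t * D p x.1.1 y.1.1 ∧
      D p (c t).1.1 y.1.1 = (1 - t) * D p x.1.1 y.1.1 ∧
      (c t).1.2 = x.1.2 + t * (y.1.2 - x.1.2) := by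
  have hp1 : 1 ≤ p := hp.le
  obtain ⟨h0, h1, hd⟩ := hc
  have e1 : DX p x (c t) = t * DX p x y := by
    have := hd 0 ⟨le_rfl, zero_le_one⟩ t ht
    rw [h0, zero_sub, abs_neg, abs_of_nonneg ht.1] at this
    exact this
  have e2 : DX p (c t) y = (1 - t) * DX p x y := by
    have := hd t ht 1 ⟨zero_le_one, le_rfl⟩
    rw [h1, abs_sub_comm, abs_of_nonneg (by linarith [ht.2])] at this
    exact this
  have htri := D_triangle hp1 x.2 (c t).2 y.2
  have n1 := D_nonneg (p := p) x.1.1 (c t).1.1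
  have n2 := D_nonneg (p := p) (c t).1.1 y.1.1
  have n3 := D_nonneg (p := p) x.1.1 y.1.1
  simp only [DX] at e1 e2
  set A := D p x.1.1 (c t).1.1
  set A' := D p (c t).1.1 y.1.1
  set L := D p x.1.1 y.1.1
  set B := x.1.2 - (c t).1.2 with hB
  set B' := (c t).1.2 - y.1.2 with hB'
  have hBB : x.1.2 - y.1.2 = B + B' := by rw [hB, hB']; ring
  rw [hBB] at e1 e2
  have m1 : nrm2 p L (B + B') ≤ nrm2 p (A + A') (B + B') := by
    apply nrm2_mono hp1 _ le_rfl
    rw [abs_of_nonneg n3, abs_of_nonneg (add_nonneg n1 n2)]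
    exact htri
  have m2 := nrm2_add_le hp1 A B A' B'
  have m3 : nrm2 p A B + nrm2 p A' B' = nrm2 p L (B + B') := by rw [e1, e2]; ring
  have m4 := nrm2_add_eq hp (a := A) (b := B) (a' := A') (b' := B') (by rw [m3]; exact m1)
  have hLA : L = A + A' := by
    by_contra hne
    have hlt : L < A + A' := lt_of_le_of_ne htri hne
    have := nrm2_strictMono hp1 (a := L) (a' := A + A') (b := B + B') (by
      rw [abs_of_nonneg n3, abs_of_nonneg (add_nonneg n1 n2)]; exact hlt)
    linarith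
  rcases eq_or_lt_of_le (nrm2_nonneg p L (B + B')) with hz | hz
  · obtain ⟨z1, z2⟩ := nrm2_eq_zero hp1 hz.symm
    rw [← hz, mul_zero] at e1 e2
    obtain ⟨w1, w2⟩ := nrm2_eq_zero hp1 e1
    obtain ⟨w3, w4⟩ := nrm2_eq_zero hp1 e2
    rw [z1, w1, w3]
    refine ⟨by ring, by ring, ?_⟩
    have : y.1.2 - x.1.2 = 0 := by linarith
    rw [this]; linarith
  · rw [e1, e2] at m4
    obtain ⟨m5, m6⟩ := m4
    have m7 : (1 - t) * A = t * A' := by
      apply mul_left_cancel₀ hz.ne'
      linarith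
    have m8 : (1 - t) * B = t * B' := by
      apply mul_left_cancel₀ hz.ne'
      linarith
    refine ⟨by rw [hLA]; linarith, by rw [hLA]; linarith, ?_⟩
    have : y.1.2 - x.1.2 = -(B + B') := by linarith
    rw [this]
    linarith

theorem DX_uniquelyGeodesic {p : ℝ} (hp : 1 < p) : UniquelyGeodesic (DX p) := by
  refine ⟨fun x y => ?_, fun x y c c' hc hc' t ht => ?_⟩
  · obtain ⟨c, hc, _⟩ := DX_geodesic hp.le x y
    exact ⟨c, hc⟩
  · obtain ⟨h1, h2, h3⟩ := DX_unique hp hc ht
    obtain ⟨h1', h2', h3'⟩ := DX_unique hp hc' ht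
    apply Subtype.ext
    apply Prod.ext
    · apply uniq hp x.2 y.2 _ _ (c t).2 (c' t).2
      · rw [h1, h1']
      · rw [h1, h2]; ring
      · rw [h1', h2']; ring
    · rw [h3, h3']

theorem DX_cat0 : IsCAT0 (DX 2) := by
  refine ⟨DX_isMetric (by norm_num), (DX_uniquelyGeodesic (by norm_num)).1, ?_⟩
  intro x y c hc z t ht
  obtain ⟨c', hc', h⟩ := DX_geodesic (p := 2) (by norm_num) x y
  rw [(DX_uniquelyGeodesic (by norm_num)).2 x y c c' hc hc' t ht]
  exact h rfl z t ht

end Pool.Agent.TH588
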