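import Mathlib
import Pool.Agent.TH588.Prod

set_option autoImplicit false

/-! Rays through additive sequences and their convergence in the compactification. -/

namespace Pool.Agent.TH588

open Filter Topology

/-- two-point uniqueness -/
theorem DX_two {p : ℝ} (hp : 1 < p) {x y m m' : XX} (h0 : DX p x m = DX p x m')
    (h1 : DX p x m + DX p m y = DX p x y) (h2 : DX p x m' + DX p m' y = DX p x y) : m = m' := by
  have hp1 : 1 ≤ p := hp.le
  obtain ⟨hnn, hz, hsym, htri⟩ := DX_isMetric hp1
  have key : ∀ w z : XX, DX p x w + DX p w z = DX p x z → ∃ c, IsGeodesic (DX p) x z c ∧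
      c (DX p x w / DX p x z) = w := by
    intro w z hw
    rcases eq_or_lt_of_le (hnn x z) with h | h
    · have e1 : DX p x w = 0 := by linarith [hnn x w, hnn w z]
      have e2 : x = w := (hz x w).mp e1
      have e3 : x = z := (hz x z).mp h.symm
      refine ⟨fun _ => x, ⟨rfl, e3, ?_⟩, e2⟩
      intro s _ t _
      rw [← h, mul_zero, (hz x x).mpr rfl]
    · obtain ⟨c₁, ⟨a0, a1, ad⟩, _⟩ := DX_geodesic hp1 x w
      obtain ⟨c₂, ⟨b0, b1, bd⟩, _⟩ := DX_geodesic hp1 w z
      set L := DX p x z with hL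
      set A := DX p x w with hA
      set B := DX p w z with hB
      have hA0 : 0 ≤ A := hnn _ _
      have hB0 : 0 ≤ B := hnn _ _
      rcases eq_or_lt_of_le hA0 with hA1 | hA1
      · -- w = x
        have e2 : x = w := (hz x w).mp hA1.symm
        have hBL : B = L := by linarith
        refine ⟨c₂, ⟨by rw [b0, e2], b1, fun s hs t ht => ?_⟩, ?_⟩
        · rw [bd s hs t ht, hBL]
        · rw [← hA1, zero_div, b0]
      rcases eq_or_lt_of_le hB0 with hB1 | hB1
      · have e2 : w = z := (hz w z).mp hB1.symm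
        have hAL : A = L := by linarith
        refine ⟨c₁, ⟨a0, by rw [a1, e2], fun s hs t ht => ?_⟩, ?_⟩
        · rw [ad s hs t ht, hAL]
        · rw [hAL, div_self h.ne', a1]
      set θ := A / L with hθ
      have hθL : θ * L = A := by rw [hθ]; field_simp
      have hθ0 : 0 < θ := by positivity
      have hθ1 : θ < 1 := by rw [hθ, div_lt_one h]; linarith
      have h1θ : (1 - θ) * L = B := by linarith
      refine ⟨fun t => if t ≤ θ then c₁ (t / θ) else c₂ ((t - θ) / (1 - θ)), ⟨?_, ?_, ?_⟩, ?_⟩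
      · simp only
        rw [if_pos hθ0.le, zero_div, a0]
      · simp only
        rw [if_neg (by linarith), div_self (by linarith), b1]
      · have m1 : ∀ s, 0 ≤ s → s ≤ θ → s / θ ∈ Set.Icc (0 : ℝ) 1 := fun s h0 h1 =>
          ⟨by positivity, by rw [div_le_one hθ0]; exact h1⟩
        have m2 : ∀ s, θ ≤ s → s ≤ 1 → (s - θ) / (1 - θ) ∈ Set.Icc (0 : ℝ) 1 := fun s h0 h1 =>
          ⟨div_nonneg (by linarith) (by linarith), by rw [div_le_one (by linarith)]; linarith⟩
        have d1 : ∀ s t, 0 ≤ s → s ≤ θ → 0 ≤ t → t ≤ θ →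
            DX p (c₁ (s / θ)) (c₁ (t / θ)) = |s - t| * L := by
          intro s t hs hs' ht ht'
          rw [ad _ (m1 s hs hs') _ (m1 t ht ht'), ← sub_div, abs_div, abs_of_pos hθ0, ← hθL]
          field_simp
        have d2 : ∀ s t, θ ≤ s → s ≤ 1 → θ ≤ t → t ≤ 1 →
            DX p (c₂ ((s - θ) / (1 - θ))) (c₂ ((t - θ) / (1 - θ))) = |s - t| * L := by
          intro s t hs hs' ht ht'
          have h3 : 0 < 1 - θ := by linarith
          rw [bd _ (m2 s hs hs') _ (m2 t ht ht'), ← sub_div, abs_div, abs_of_pos h3, ← h1θ]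
          have : s - θ - (t - θ) = s - t := by ring
          rw [this]
          field_simp
        have d3 : ∀ s t, 0 ≤ s → s ≤ θ → θ ≤ t → t ≤ 1 →
            DX p (c₁ (s / θ)) (c₂ ((t - θ) / (1 - θ))) = (t - s) * L := by
          intro s t hs hs' ht ht'
          have e1 := d1 0 s le_rfl hθ0.le hs hs'
          have e2 := d1 s θ hs hs' hθ0.le le_rfl
          have e3 := d2 θ t le_rfl hθ1.le ht ht'
          have e4 := d2 t 1 ht ht' hθ1.le le_rfl
          rw [zero_div, a0, zero_sub, abs_neg, abs_of_nonneg hs] at e1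
          rw [div_self hθ0.ne', a1, abs_sub_comm, abs_of_nonneg (by linarith)] at e2
          rw [sub_self, zero_div, b0, abs_sub_comm, abs_of_nonneg (by linarith)] at e3
          rw [div_self (by linarith), b1, abs_sub_comm, abs_of_nonneg (by linarith)] at e4
          have f1 := htri (c₁ (s / θ)) w (c₂ ((t - θ) / (1 - θ)))
          have f2 := htri x (c₁ (s / θ)) z
          have f3 := htri (c₁ (s / θ)) (c₂ ((t - θ) / (1 - θ))) z
          apply le_antisymm
          · linarith
          · linarith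
        intro s hs t ht
        simp only
        rcases le_or_gt s θ with h1 | h1 <;> rcases le_or_gt t θ with h2 | h2
        · rw [if_pos h1, if_pos h2]; exact d1 s t hs.1 h1 ht.1 h2
        · rw [if_pos h1, if_neg (not_le.mpr h2), d3 s t hs.1 h1 h2.le ht.2, abs_sub_comm,
            abs_of_nonneg (by linarith)]
        · rw [if_neg (not_le.mpr h1), if_pos h2, hsym, d3 t s ht.1 h2 h1.le hs.2,
            abs_of_nonneg (by linarith)]
        · rw [if_neg (not_le.mpr h1), if_neg (not_le.mpr h2)]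
          exact d2 s t h1.le hs.2 h2.le ht.2
      · simp only
        rw [if_pos le_rfl, div_self hθ0.ne', a1]
  obtain ⟨c, hc, hcm⟩ := key m y h1
  obtain ⟨c', hc', hcm'⟩ := key m' y h2
  rw [← hcm, ← hcm', h0]
  apply (DX_uniquelyGeodesic hp).2 x y c c' hc hc'
  rcases eq_or_lt_of_le (hnn x y) with h | h
  · rw [← h, div_zero]; exact ⟨le_rfl, zero_le_one⟩
  · refine ⟨div_nonneg (hnn _ _) h.le, ?_⟩
    rw [div_le_one h]
    linarith [hnn m' y]

/-- The ray through an additive sequence. -/
theorem exists_ray {p : ℝ} (hp : 1 < p) {o : XX} {x : ℕ → XX}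
    (hadd : ∀ n m, n ≤ m → DX p o (x n) + DX p (x n) (x m) = DX p o (x m))
    (hunb : Tendsto (fun n => DX p o (x n)) atTop atTop) :
    ∃ c : Ray (DX p) o, ∀ n g, IsGeodesic (DX p) o (x n) g → ∀ R : NNReal,
      (R : ℝ) < DX p o (x n) → g (R / DX p o (x n)) = c.1 R := by
  have hp1 : 1 ≤ p := hp.le
  obtain ⟨hnn, hz, hsym, htri⟩ := DX_isMetric hp1
  choose g hg _ using fun n => DX_geodesic hp1 o (x n)
  -- a point at distance `R` on the geodesic to `x n`
  have hpt : ∀ n c, IsGeodesic (DX p) o (x n) c → ∀ R : ℝ, 0 ≤ R → R < DX p o (x n) →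
      DX p o (c (R / DX p o (x n))) = R ∧
      DX p (c (R / DX p o (x n))) (x n) = DX p o (x n) - R := by
    intro n c ⟨h0, h1, hd⟩ R hR hRn
    have hpos : 0 < DX p o (x n) := lt_of_le_of_lt hR hRn
    have hmem : R / DX p o (x n) ∈ Set.Icc (0 : ℝ) 1 :=
      ⟨by positivity, by rw [div_le_one hpos]; exact hRn.le⟩
    constructor
    · have := hd 0 ⟨le_rfl, zero_le_one⟩ _ hmem
      rw [h0, zero_sub, abs_neg, abs_of_nonneg hmem.1] at this
      rw [this]; field_simp
    · have := hd _ hmem 1 ⟨zero_le_one, le_rfl⟩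
      rw [h1, abs_sub_comm, abs_of_nonneg (by linarith [hmem.2])] at this
      rw [this]; field_simp
  -- additive with respect to later points
  have hpt2 : ∀ n m, n ≤ m → ∀ c, IsGeodesic (DX p) o (x n) c → ∀ R : ℝ, 0 ≤ R →
      R < DX p o (x n) →
      DX p o (c (R / DX p o (x n))) + DX p (c (R / DX p o (x n))) (x m) = DX p o (x m) := by
    intro n m hnm c hc R hR hRn
    obtain ⟨h1, h2⟩ := hpt n c hc R hR hRn
    have h3 := htri (c (R / DX p o (x n))) (x n) (x m)
    have h4 := htri o (c (R / DX p o (x n))) (x m)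
    have h5 := hadd n m hnm
    linarith
  have hmono : ∀ n m, n ≤ m → DX p o (x n) ≤ DX p o (x m) := by
    intro n m hnm
    have := hadd n m hnm
    linarith [hnn (x n) (x m)]
  have hcons : ∀ n m, n ≤ m → ∀ c c', IsGeodesic (DX p) o (x n) c → IsGeodesic (DX p) o (x m) c' →
      ∀ R : ℝ, 0 ≤ R → R < DX p o (x n) → c (R / DX p o (x n)) = c' (R / DX p o (x m)) := by
    intro n m hnm c c' hc hc' R hR hRn
    have hRm := lt_of_lt_of_le hRn (hmono n m hnm)
    apply DX_two hp (x := o) (y := x m)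
    · rw [(hpt n c hc R hR hRn).1, (hpt m c' hc' R hR hRm).1]
    · exact hpt2 n m hnm c hc R hR hRn
    · exact hpt2 m m le_rfl c' hc' R hR hRm
  have hcons' : ∀ n m c c', IsGeodesic (DX p) o (x n) c → IsGeodesic (DX p) o (x m) c' →
      ∀ R : ℝ, 0 ≤ R → R < DX p o (x n) → R < DX p o (x m) →
      c (R / DX p o (x n)) = c' (R / DX p o (x m)) := by
    intro n m c c' hc hc' R hR hRn hRm
    rcases le_total n m with h | h
    · exact hcons n m h c c' hc hc' R hR hRn
    · exact (hcons m n h c' c hc' hc R hR hRm).symm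
  have hex : ∀ R : ℝ, ∃ n, R < DX p o (x n) := fun R => (hunb.eventually_gt_atTop R).exists
  choose N hN using hex
  let c : NNReal → XX := fun R => g (N R) (R / DX p o (x (N R)))
  have hc : ∀ n g', IsGeodesic (DX p) o (x n) g' → ∀ R : NNReal,
      (R : ℝ) < DX p o (x n) → g' (R / DX p o (x n)) = c R := by
    intro n g' hg' R hR
    exact hcons' n (N R) g' (g (N R)) hg' (hg _) R R.2 hR (hN R)
  have hray : c 0 = o ∧ ∀ s t : NNReal, DX p (c s) (c t) = |(s : ℝ) - t| := by
    constructor
    · simp only [c, NNReal.coe_zero, zero_div]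
      exact (hg _).1
    · intro s t
      obtain ⟨m, hm⟩ : ∃ m, (s : ℝ) < DX p o (x m) ∧ (t : ℝ) < DX p o (x m) := by
        refine ⟨N (max (s : ℝ) t), ?_⟩
        have := hN (max (s : ℝ) t)
        exact ⟨lt_of_le_of_lt (le_max_left _ _) this, lt_of_le_of_lt (le_max_right _ _) this⟩
      rw [← hc m (g m) (hg m) s hm.1, ← hc m (g m) (hg m) t hm.2]
      have hpos : 0 < DX p o (x m) := lt_of_le_of_lt s.2 hm.1
      rw [(hg m).2.2 (s / DX p o (x m)) ⟨div_nonneg (NNReal.coe_nonneg s) hpos.le,
        by rw [div_le_one hpos]; exact hm.1.le⟩ (t / DX p o (x m))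
        ⟨div_nonneg (NNReal.coe_nonneg t) hpos.le, by rw [div_le_one hpos]; exact hm.2.le⟩,
        ← sub_div, abs_div, abs_of_pos hpos]
      field_simp
  exact ⟨⟨c, hray⟩, hc⟩

theorem tendsto_ray {p : ℝ} (hp : 1 < p) {o : XX} {x : ℕ → XX} {c : Ray (DX p) o}
    (hc : ∀ n g, IsGeodesic (DX p) o (x n) g → ∀ R : NNReal,
      (R : ℝ) < DX p o (x n) → g (R / DX p o (x n)) = c.1 R)
    (hunb : Tendsto (fun n => DX p o (x n)) atTop atTop) :
    Tendsto (fun n => (Compactification.point (x n) : Compactification (DX p) o)) atTop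
      (𝓝 (Compactification.ray c)) := by
  rw [TopologicalSpace.tendsto_nhds_generateFrom_iff]
  rintro s (⟨y, r, rfl⟩ | ⟨c', R, ε, hε, rfl⟩) hcs
  · obtain ⟨_, _, h⟩ := hcs
    exact absurd h (by simp)
  · have hcs' : DX p (c.1 R) (c'.1 R) < ε := by
      rcases hcs with ⟨_, _, h⟩ | ⟨c'', h, h'⟩
      · exact absurd h (by simp)
      · rw [Compactification.ray.injEq] at h'
        rw [← h']; exact h
    filter_upwards [hunb.eventually_gt_atTop (R : ℝ)] with n hn
    obtain ⟨g, hg, _⟩ := DX_geodesic hp.le o (x n)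
    refine Or.inl ⟨x n, ⟨hn, g, hg, ?_⟩, rfl⟩
    rw [hc n g hg R hn]
    exact hcs'

/-- If the sequence converges in the compactification then the slopes converge. -/
theorem slope_converges {r : ℝ} (hr : 1 < r) {o : XX} {x : ℕ → XX}
    (hunb : Tendsto (fun n => DX r o (x n)) atTop atTop) {z : Compactification (DX r) o}
    (hz : Tendsto (fun n => (Compactification.point (x n) : Compactification (DX r) o)) atTop
      (𝓝 z)) :
    ∃ ρ, Tendsto (fun n => ((x n).1.2 - o.1.2) / DX r o (x n)) atTop (𝓝 ρ) := by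
  obtain ⟨hnn, hzz, hsym, htri⟩ := DX_isMetric hr.le
  rcases z with y | c
  · exfalso
    have hopen : IsOpen (Compactification.point '' {w | DX r y w < 1} :
        Set (Compactification (DX r) o)) :=
      TopologicalSpace.isOpen_generateFrom_of_mem (Or.inl ⟨y, 1, rfl⟩)
    have hmem : (Compactification.point y : Compactification (DX r) o) ∈
        (Compactification.point '' {w | DX r y w < 1} : Set (Compactification (DX r) o)) := by
      refine ⟨y, ?_, rfl⟩
      rw [Set.mem_ofPred_eq, (hzz y y).mpr rfl]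
      exact one_pos
    have h1 : ∀ᶠ n in atTop, (Compactification.point (x n) : Compactification (DX r) o) ∈
      (Compactification.point '' {w | DX r y w < 1} : Set (Compactification (DX r) o)) :=
        hz (hopen.mem_nhds hmem)
    have h2 := hunb.eventually_gt_atTop (DX r o y + 1)
    obtain ⟨n, hn1, hn2⟩ := (h1.and h2).exists
    obtain ⟨w, hw, hwe⟩ := hn1
    rw [Compactification.point.injEq] at hwe
    rw [hwe] at hw
    have h3 := htri o y (x n)
    have hw' : DX r y (x n) < 1 := hw
    linarith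
  · refine ⟨(c.1 1).1.2 - o.1.2, ?_⟩
    rw [Metric.tendsto_nhds]
    intro ε hε
    have hopen : IsOpen (coneNhd c 1 ε) :=
      TopologicalSpace.isOpen_generateFrom_of_mem (Or.inr ⟨c, 1, ε, hε, rfl⟩)
    have hmem : (Compactification.ray c : Compactification (DX r) o) ∈ coneNhd c 1 ε := by
      refine Or.inr ⟨c, ?_, rfl⟩
      change DX r (c.1 1) (c.1 1) < ε
      rw [(hzz _ _).mpr rfl]
      exact hε
    have h1 : ∀ᶠ n in atTop, (Compactification.point (x n) : Compactification (DX r) o) ∈
      coneNhd c 1 ε := hz (hopen.mem_nhds hmem)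
    filter_upwards [h1] with n hn
    rcases hn with ⟨w, ⟨hn1, g, hg, hgc⟩, hw⟩ | ⟨_, _, h⟩
    swap
    · exact absurd h (by simp)
    rw [Compactification.point.injEq] at hw
    rw [hw] at hn1 hg hgc
    simp only [NNReal.coe_one] at hn1 hgc
    have hpos : 0 < DX r o (x n) := by linarith
    have hmem : 1 / DX r o (x n) ∈ Set.Icc (0 : ℝ) 1 :=
      ⟨by positivity, by rw [div_le_one hpos]; exact hn1.le⟩
    obtain ⟨_, _, h3⟩ := DX_unique hr hg hmem
    have h4 := le_nrm2_right hr.le (D r (g (1 / DX r o (x n))).1.1 (c.1 1).1.1)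
      ((g (1 / DX r o (x n))).1.2 - (c.1 1).1.2)
    have h5 : |(g (1 / DX r o (x n))).1.2 - (c.1 1).1.2| < ε := lt_of_le_of_lt h4 hgc
    rw [h3] at h5
    rw [Real.dist_eq]
    convert h5 using 2
    ring

end Pool.Agent.TH588
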