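import Mathlib
import Pool.Agent.TH588.Bdry

set_option autoImplicit false

/-! A sequence of vertices along which the ratio of the `ℓ^p` and `ℓ^r` distances oscillates. -/

namespace Pool.Agent.TH588

open Filter Topology FreeGroup

/-- The letters of the path. -/
def ltr (i : ℕ) : Bool := decide (Odd (Nat.log 2 (Nat.log 2 i)))

/-- The vertices of the path starting at the far vertex of the block `b`. -/
def hseq (b : Blk) : ℕ → F2
  | 0 => far b
  | n + 1 => hseq b n * of (ltr n)

/-- The thresholds. -/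
def T (j : ℕ) : ℕ := 2 ^ 2 ^ j

theorem ltr_of_mem {i j : ℕ} (h1 : T j ≤ i) (h2 : i < T (j + 1)) : ltr i = decide (Odd j) := by
  unfold T at h1 h2
  have hi : i ≠ 0 := by
    have : 0 < 2 ^ 2 ^ j := by positivity
    omega
  have h3 : 2 ^ j ≤ Nat.log 2 i := Nat.le_log_of_pow_le (by norm_num) h1
  have h4 : Nat.log 2 i < 2 ^ (j + 1) := Nat.log_lt_of_lt_pow hi h2
  have h5 : Nat.log 2 (Nat.log 2 i) = j := Nat.log_eq_of_pow_le_of_lt_pow h3 h4
  rw [ltr, h5]

/-- The number of letters `false` among the first `n`. -/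
def cnt (n : ℕ) : ℕ := ((Finset.range n).filter (fun i => ltr i = false)).card

theorem cnt_succ (n : ℕ) : cnt (n + 1) = cnt n + if ltr n = false then 1 else 0 := by
  unfold cnt
  rw [Finset.range_add_one, Finset.filter_insert]
  split_ifs with h
  · rw [Finset.card_insert_of_notMem (by simp)]
  · rfl

theorem cnt_le (n : ℕ) : cnt n ≤ n := by
  have := Finset.card_filter_le (Finset.range n) (fun i => ltr i = false)
  rwa [Finset.card_range] at this

theorem T_sq (j : ℕ) : T (j + 1) = T j * T j := by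
  unfold T
  rw [← pow_add, pow_succ]
  congr 1
  ring

theorem T_pos (j : ℕ) : 0 < T j := by unfold T; positivity

theorem lt_T (j : ℕ) : j < T j := by
  unfold T
  exact lt_trans Nat.lt_two_pow_self Nat.lt_two_pow_self

theorem cnt_odd {j : ℕ} (hj : Odd j) : cnt (T (j + 1)) ≤ T j := by
  unfold cnt
  have : (Finset.range (T (j + 1))).filter (fun i => ltr i = false) ⊆ Finset.range (T j) := by
    intro i hi
    rw [Finset.mem_filter, Finset.mem_range] at hi
    rw [Finset.mem_range]
    by_contra h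
    push Not at h
    rw [ltr_of_mem h hi.1] at hi
    simp [hj] at hi
  simpa using Finset.card_le_card this

theorem cnt_even {j : ℕ} (hj : Even j) : T (j + 1) ≤ cnt (T (j + 1)) + T j := by
  have h1 : (Finset.range (T (j + 1))).card = T (j + 1) := Finset.card_range _
  have h2 := Finset.card_filter_add_card_filter_not (s := Finset.range (T (j + 1)))
    (fun i => ltr i = false)
  have h3 : (Finset.range (T (j + 1))).filter (fun i => ¬ ltr i = false) ⊆ Finset.range (T j) := by
    intro i hi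
    rw [Finset.mem_filter, Finset.mem_range] at hi
    rw [Finset.mem_range]
    by_contra h
    push Not at h
    rw [ltr_of_mem h hi.1] at hi
    have : ¬ Odd j := Nat.not_odd_iff_even.mpr hj
    simp [this] at hi
  have h4 := Finset.card_le_card h3
  rw [Finset.card_range] at h4
  unfold cnt
  omega

/-- The lengths of the two kinds of steps. -/
theorem nrm_corner_true {p : ℝ} (hp : 1 ≤ p) : nrm p (corner true) = 1 := by
  simp only [nrm, corner, if_true]
  rw [nrm2_zero_right hp, abs_one]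

theorem nrm_corner_false (p : ℝ) : nrm p (corner false) = 2 ^ (1 / p) := by
  simp only [nrm, corner, nrm2]
  norm_num

theorem one_le_kappa {p : ℝ} (hp : 1 ≤ p) : (1 : ℝ) ≤ 2 ^ (1 / p) :=
  Real.one_le_rpow (by norm_num) (by positivity)

section

variable {p : ℝ} (hp : 1 ≤ p) {b : Blk} {u : ℝ × ℝ} (hu : u ∈ sq)

theorem side_mono (b : Blk) {n m : ℕ} (h : n ≤ m) (e : Blk) (he : side (hseq b n) e = true) :
    side (hseq b m) e = true := by
  induction h with
  | refl => exact he
  | step _ ih =>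
    rw [hseq, side_mul]
    split_ifs
    · rfl
    · exact ih

theorem btw_seq (b : Blk) (u : ℝ × ℝ) {n m : ℕ} (h : n ≤ m) :
    Btw (pt b u) (vtx (hseq b n)) (vtx (hseq b m)) := by
  intro e
  cases hs : side (hseq b n) e
  · left
    have h0 : side (far b) e = false := by
      by_contra hne
      have h1 : side (hseq b 0) e = true := by simpa [hseq] using hne
      have := side_mono b (Nat.zero_le n) e h1
      rw [hs] at this
      exact absurd this (by simp)
    rw [side_far] at h0
    have hne : e ≠ b := by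
      rintro rfl
      simp at h0
    rw [if_neg hne] at h0
    rw [pt_ne _ hne]
    simp [vtx, hs, h0]
  · right
    have := side_mono b h e hs
    simp [vtx, hs, this]

/-- The distances along the path. -/
noncomputable def Ln (p : ℝ) (b : Blk) (u : ℝ × ℝ) (n : ℕ) : ℝ := D p (pt b u) (vtx (hseq b n))

include hp hu in
theorem D_seq {n m : ℕ} (h : n ≤ m) :
    D p (vtx (hseq b n)) (vtx (hseq b m)) = Ln p b u m - Ln p b u n := by
  have := D_btw hp (pt_mem hu) (vtx_inY _) (vtx_inY _) (btw_seq b u h)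
  unfold Ln
  linarith

include hp hu in
theorem Ln_succ (n : ℕ) : Ln p b u (n + 1) = Ln p b u n + nrm p (corner (ltr n)) := by
  have h1 := D_seq hp hu (b := b) (Nat.le_succ n)
  have h2 : D p (vtx (hseq b n)) (vtx (hseq b (n + 1))) = nrm p (corner (ltr n)) := by
    have e1 : vtx (hseq b n) = pt (hseq b n, ltr n) 0 := vtx_eq_near (hseq b n, ltr n)
    have e2 : vtx (hseq b (n + 1)) = pt (hseq b n, ltr n) (corner (ltr n)) :=
      vtx_eq_far (hseq b n, ltr n)
    rw [e1, e2, D_pt hp, zero_sub, nrm_neg]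
  rw [Nat.succ_eq_add_one] at h1
  linarith

include hp hu in
theorem Ln_eq (n : ℕ) : Ln p b u n = Ln p b u 0 + cnt n * 2 ^ (1 / p) + (n - cnt n) := by
  induction n with
  | zero => simp [cnt]
  | succ n ih =>
    rw [Ln_succ hp hu, ih, cnt_succ]
    cases h : ltr n
    · rw [nrm_corner_false]; push_cast; simp; ring
    · rw [nrm_corner_true hp]; push_cast; simp; ring

include hp hu in
theorem le_Ln (n : ℕ) : (n : ℝ) ≤ Ln p b u n := by
  rw [Ln_eq hp hu]
  have h1 : 0 ≤ Ln p b u 0 := D_nonneg _ _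
  have h2 := one_le_kappa hp
  have h3 : (0 : ℝ) ≤ cnt n := Nat.cast_nonneg _
  nlinarith

end

/-- The ratio of the distances, in terms of the proportion of letters `false`. -/
theorem ratio_tendsto {p r : ℝ} (hp : 1 ≤ p) (hr : 1 ≤ r) {b : Blk} {u : ℝ × ℝ} (hu : u ∈ sq)
    {n : ℕ → ℕ} (hn : Tendsto (fun k => (n k : ℝ)) atTop atTop) {a : ℝ} (ha0 : 0 ≤ a) (ha1 : a ≤ 1)
    (ha : Tendsto (fun k => (cnt (n k) : ℝ) / n k) atTop (𝓝 a)) :
    Tendsto (fun k => Ln r b u (n k) / Ln p b u (n k)) atTop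
      (𝓝 ((a * 2 ^ (1 / r) + (1 - a)) / (a * 2 ^ (1 / p) + (1 - a)))) := by
  have hinv : Tendsto (fun k => 1 / (n k : ℝ)) atTop (𝓝 0) := by
    simpa [one_div, Function.comp_def] using tendsto_inv_atTop_zero.comp hn
  have hlim : ∀ q : ℝ, Tendsto (fun k => Ln q b u 0 * (1 / (n k : ℝ)) +
      (cnt (n k) : ℝ) / n k * 2 ^ (1 / q) + (1 - (cnt (n k) : ℝ) / n k)) atTop
      (𝓝 (Ln q b u 0 * 0 + a * 2 ^ (1 / q) + (1 - a))) := fun q =>
    ((hinv.const_mul _).add (ha.mul_const _)).add (tendsto_const_nhds.sub ha)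
  have hne : Ln p b u 0 * 0 + a * 2 ^ (1 / p) + (1 - a) ≠ 0 := by
    have := one_le_kappa hp
    nlinarith
  have h := (hlim r).div (hlim p) hne
  simp only [mul_zero, zero_add] at h
  refine h.congr' ?_
  filter_upwards [hn.eventually_gt_atTop 0] with k hk
  simp only [Pi.div_apply]
  rw [Ln_eq hp hu (n k), Ln_eq hr hu (n k)]
  have hk' : (n k : ℝ) ≠ 0 := hk.ne'
  have e : ∀ q : ℝ, Ln q b u 0 * (1 / (n k : ℝ)) + (cnt (n k) : ℝ) / n k * 2 ^ (1 / q) +
      (1 - (cnt (n k) : ℝ) / n k) =
      (Ln q b u 0 + cnt (n k) * 2 ^ (1 / q) + (n k - cnt (n k))) / n k := by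
    intro q; field_simp
  rw [e, e, div_div_div_cancel_right₀ hk']

theorem tendsto_T (f : ℕ → ℕ) (hf : ∀ k, k ≤ f k) : Tendsto (fun k => (T (f k) : ℝ)) atTop atTop := by
  apply tendsto_natCast_atTop_atTop.comp
  apply tendsto_atTop_mono (fun k => ?_) tendsto_id
  exact (hf k).trans (lt_T _).le

theorem seq_zero : Tendsto (fun k => (cnt (T (2 * k + 2)) : ℝ) / T (2 * k + 2)) atTop (𝓝 0) := by
  have h1 : Tendsto (fun k => 1 / (T (2 * k + 1) : ℝ)) atTop (𝓝 0) := by
    simpa [one_div, Function.comp_def] using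
      tendsto_inv_atTop_zero.comp (tendsto_T (fun k => 2 * k + 1) (fun k => by omega))
  refine squeeze_zero (fun k => by positivity) (fun k => ?_) h1
  have h2 : (cnt (T (2 * k + 1 + 1)) : ℝ) ≤ T (2 * k + 1) := by
    exact_mod_cast cnt_odd (j := 2 * k + 1) ⟨k, rfl⟩
  have h3 : (T (2 * k + 1 + 1) : ℝ) = T (2 * k + 1) * T (2 * k + 1) := by
    exact_mod_cast T_sq (2 * k + 1)
  have h4 : (0 : ℝ) < T (2 * k + 1) := by exact_mod_cast T_pos _
  change (cnt (T (2 * k + 1 + 1)) : ℝ) / T (2 * k + 1 + 1) ≤ _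
  rw [div_le_div_iff₀ (by rw [h3]; positivity) h4, h3]
  nlinarith

theorem seq_one : Tendsto (fun k => (cnt (T (2 * k + 1)) : ℝ) / T (2 * k + 1)) atTop (𝓝 1) := by
  have h1 : Tendsto (fun k => 1 / (T (2 * k) : ℝ)) atTop (𝓝 0) := by
    simpa [one_div, Function.comp_def] using
      tendsto_inv_atTop_zero.comp (tendsto_T (fun k => 2 * k) (fun k => by omega))
  have h0 : Tendsto (fun k => 1 - (cnt (T (2 * k + 1)) : ℝ) / T (2 * k + 1)) atTop (𝓝 0) := by
    refine squeeze_zero (fun k => ?_) (fun k => ?_) h1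
    · have h4 : (0 : ℝ) < T (2 * k + 1) := by exact_mod_cast T_pos _
      have h5 : (cnt (T (2 * k + 1)) : ℝ) ≤ T (2 * k + 1) := by exact_mod_cast cnt_le _
      rw [sub_nonneg, div_le_one h4]
      exact h5
    · have h2 : (T (2 * k + 1) : ℝ) ≤ cnt (T (2 * k + 1)) + T (2 * k) := by
        exact_mod_cast cnt_even (j := 2 * k) ⟨k, by ring⟩
      have h3 : (T (2 * k + 1) : ℝ) = T (2 * k) * T (2 * k) := by
        exact_mod_cast T_sq (2 * k)
      have h4 : (0 : ℝ) < T (2 * k) := by exact_mod_cast T_pos _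
      have h5 : (0 : ℝ) < T (2 * k + 1) := by exact_mod_cast T_pos _
      have h6 : 1 - (cnt (T (2 * k + 1)) : ℝ) / T (2 * k + 1) =
          (T (2 * k + 1) - cnt (T (2 * k + 1))) / T (2 * k + 1) := by field_simp
      rw [h6, div_le_div_iff₀ h5 h4]
      nlinarith
  have := h0.const_sub 1
  simpa using this

/-- The identity does not extend. -/
theorem no_extension {p r : ℝ} (hp : 1 < p) (hr : 1 < r) (hpr : p ≠ r) (o : XX) :
    ¬ ∃ F : Compactification (DX p) o → Compactification (DX r) o, Continuous F ∧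
      ∀ x, F (Compactification.point x) = Compactification.point x := by
  obtain ⟨⟨y₀, s₀⟩, hy⟩ := o
  have hy2 : InY y₀ := hy
  obtain ⟨b, u, hu, rfl⟩ := hy2
  set o : XX := ⟨(pt b u, s₀), hy⟩ with ho
  rintro ⟨F, hF, hFx⟩
  have hp1 := hp.le
  have hr1 := hr.le
  let x : ℕ → XX := fun n => ⟨(vtx (hseq b n), s₀ + Ln p b u n), vtx_inY _⟩
  have hLp : ∀ n, 0 ≤ Ln p b u n := fun n => D_nonneg _ _
  have hLr : ∀ n, 0 ≤ Ln r b u n := fun n => D_nonneg _ _
  have hd : ∀ q, DX q o = fun z => nrm2 q (D q (pt b u) z.1.1) (s₀ - z.1.2) := fun q => rfl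
  have hpx : ∀ n, DX p o (x n) = Ln p b u n * nrm2 p 1 1 := by
    intro n
    rw [hd]
    simp only [x]
    have e1 : s₀ - (s₀ + Ln p b u n) = -(Ln p b u n) := by ring
    have e2 : D p (pt b u) (vtx (hseq b n)) = Ln p b u n := rfl
    rw [e1, e2, ← nrm2_abs, abs_neg, nrm2_abs]
    have := nrm2_smul hp1 (Ln p b u n) 1 1
    rw [mul_one, abs_of_nonneg (hLp n)] at this
    exact this
  have hrx : ∀ n, DX r o (x n) = nrm2 r (Ln r b u n) (Ln p b u n) := by
    intro n
    rw [hd]
    simp only [x]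
    have e1 : s₀ - (s₀ + Ln p b u n) = -(Ln p b u n) := by ring
    have e2 : D r (pt b u) (vtx (hseq b n)) = Ln r b u n := rfl
    rw [e1, e2, ← nrm2_abs, abs_neg, nrm2_abs]
  have h11 : 1 ≤ nrm2 p 1 1 := by simpa using le_nrm2_left hp1 1 1
  have hnat : Tendsto (fun n : ℕ => (n : ℝ)) atTop atTop := tendsto_natCast_atTop_atTop
  have hunbp : Tendsto (fun n => DX p o (x n)) atTop atTop := by
    apply tendsto_atTop_mono _ hnat
    intro n
    rw [hpx]
    nlinarith [le_Ln hp1 hu (b := b) n, hLp n]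
  have hunbr : Tendsto (fun n => DX r o (x n)) atTop atTop := by
    apply tendsto_atTop_mono _ hnat
    intro n
    rw [hrx]
    have := le_nrm2_left hr1 (Ln r b u n) (Ln p b u n)
    rw [abs_of_nonneg (hLr n)] at this
    exact (le_Ln hr1 hu n).trans this
  have hadd : ∀ n m, n ≤ m → DX p o (x n) + DX p (x n) (x m) = DX p o (x m) := by
    intro n m hnm
    have h1 : DX p (x n) (x m) = (Ln p b u m - Ln p b u n) * nrm2 p 1 1 := by
      simp only [DX, x]
      have h2 := D_nonneg (p := p) (vtx (hseq b n)) (vtx (hseq b m))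
      rw [D_seq hp1 hu hnm] at h2 ⊢
      have e1 : s₀ + Ln p b u n - (s₀ + Ln p b u m) = -(Ln p b u m - Ln p b u n) := by ring
      rw [e1, ← nrm2_abs, abs_neg, nrm2_abs]
      have := nrm2_smul hp1 (Ln p b u m - Ln p b u n) 1 1
      rw [mul_one, abs_of_nonneg h2] at this
      exact this
    rw [h1, hpx, hpx]
    ring
  obtain ⟨c, hc⟩ := exists_ray hp hadd hunbp
  have hlim := tendsto_ray hp hc hunbp
  have hlim2 : Tendsto (fun n => (Compactification.point (x n) : Compactification (DX r) o)) atTop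
      (𝓝 (F (Compactification.ray c))) := by
    have := (hF.tendsto (Compactification.ray c)).comp hlim
    refine this.congr (fun n => ?_)
    exact hFx (x n)
  obtain ⟨ρ, hρ⟩ := slope_converges hr hunbr hlim2
  -- the slopes in terms of the ratio
  have hslope : ∀ n : ℕ, 0 < n → ((x n).1.2 - o.1.2) / DX r o (x n) =
      1 / nrm2 r (Ln r b u n / Ln p b u n) 1 := by
    intro n hn
    rw [hrx]
    have hpos : 0 < Ln p b u n := by
      have := le_Ln hp1 hu (b := b) n
      have h2 : (0 : ℝ) < n := by exact_mod_cast hn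
      linarith
    have e1 : (x n).1.2 - o.1.2 = Ln p b u n := by simp [x, ho]
    have e2 : nrm2 r (Ln r b u n) (Ln p b u n) =
        Ln p b u n * nrm2 r (Ln r b u n / Ln p b u n) 1 := by
      have := nrm2_smul hr1 (Ln p b u n) (Ln r b u n / Ln p b u n) 1
      rw [abs_of_pos hpos, mul_one] at this
      rw [← this]
      congr 1
      field_simp
    rw [e1, e2]
    have h3 : nrm2 r (Ln r b u n / Ln p b u n) 1 ≠ 0 := by
      have := le_nrm2_right hr1 (Ln r b u n / Ln p b u n) 1
      rw [abs_one] at this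
      linarith
    field_simp
  have hcont : Continuous fun q : ℝ => nrm2 r q 1 := by
    unfold nrm2
    apply Continuous.rpow_const
    · apply Continuous.add _ continuous_const
      exact (continuous_abs).rpow_const (fun _ => Or.inr (by linarith))
    · intro q; right; positivity
  have hne0 : ∀ q : ℝ, nrm2 r q 1 ≠ 0 := by
    intro q
    have := le_nrm2_right hr1 q 1
    rw [abs_one] at this
    linarith
  have hsub : ∀ (n : ℕ → ℕ), Tendsto (fun k => (n k : ℝ)) atTop atTop → ∀ q : ℝ,
      Tendsto (fun k => Ln r b u (n k) / Ln p b u (n k)) atTop (𝓝 q) → ρ = 1 / nrm2 r q 1 := by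
    intro n hn q hq
    have hn' : Tendsto n atTop atTop := tendsto_natCast_atTop_iff.mp hn
    have h1 := hρ.comp hn'
    have h2 : Tendsto (fun k => 1 / nrm2 r (Ln r b u (n k) / Ln p b u (n k)) 1) atTop
        (𝓝 (1 / nrm2 r q 1)) :=
      Tendsto.div tendsto_const_nhds ((hcont.tendsto q).comp hq) (hne0 q)
    apply tendsto_nhds_unique h1
    refine h2.congr' ?_
    filter_upwards [hn'.eventually_gt_atTop 0] with k hk
    exact (hslope (n k) hk).symm
  have r0 := hsub (fun k => T (2 * k + 2)) (tendsto_T _ (fun k => by omega)) _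
    (ratio_tendsto hp1 hr1 hu (b := b) (tendsto_T _ (fun k => by omega)) le_rfl zero_le_one seq_zero)
  have r1 := hsub (fun k => T (2 * k + 1)) (tendsto_T _ (fun k => by omega)) _
    (ratio_tendsto hp1 hr1 hu (b := b) (tendsto_T _ (fun k => by omega)) zero_le_one le_rfl seq_one)
  simp only [zero_mul, sub_zero, zero_add, sub_self, add_zero, one_mul, div_one] at r0 r1
  rw [r0] at r1
  have h5 : nrm2 r 1 1 = nrm2 r (2 ^ (1 / r) / 2 ^ (1 / p)) 1 := by
    have := hne0 1
    have := hne0 (2 ^ (1 / r) / 2 ^ (1 / p))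
    field_simp at r1
    exact r1.symm
  have hκ : (2 : ℝ) ^ (1 / r) / 2 ^ (1 / p) = 2 ^ (1 / r - 1 / p) := by
    rw [Real.rpow_sub (by norm_num)]
  rw [hκ] at h5
  have hκ0 : (0 : ℝ) < 2 ^ (1 / r - 1 / p) := by positivity
  rcases lt_trichotomy (2 ^ (1 / r - 1 / p) : ℝ) 1 with h | h | h
  · have := nrm2_strictMono hr1 (a := 2 ^ (1 / r - 1 / p)) (a' := 1) (b := 1) (by
      rw [abs_of_pos hκ0, abs_one]; exact h)
    linarith
  · have h6 : 1 / r - 1 / p = 0 := by
      have h7 := congrArg Real.log h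
      rw [Real.log_rpow (by norm_num), Real.log_one] at h7
      have h8 : Real.log 2 ≠ 0 := (Real.log_pos (by norm_num)).ne'
      rcases mul_eq_zero.mp h7 with h9 | h9
      · exact h9
      · exact absurd h9 h8
    apply hpr
    have hp0 : p ≠ 0 := by linarith
    have hr0 : r ≠ 0 := by linarith
    field_simp at h6
    linarith
  · have := nrm2_strictMono hr1 (a := 1) (a' := 2 ^ (1 / r - 1 / p)) (b := 1) (by
      rw [abs_of_pos hκ0, abs_one]; exact h)
    linarith

end Pool.Agent.TH588
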