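import Mathlib
import Pool.Agent.TH588.Prod

set_option autoImplicit false

/-! The cube complex structure on `X = Y × ℝ`, and its piecewise `ℓ^p` metrics. -/

namespace Pool.Agent.TH588

open FreeGroup

/-- clamping to `[0,1]` -/
noncomputable def clamp (x : ℝ) : ℝ := max 0 (min 1 x)

theorem clamp_mem (x : ℝ) : 0 ≤ clamp x ∧ clamp x ≤ 1 :=
  ⟨le_max_left _ _, max_le zero_le_one (min_le_left _ _)⟩

theorem clamp_eq {x : ℝ} (h0 : 0 ≤ x) (h1 : x ≤ 1) : clamp x = x := by
  simp [clamp, h0, h1]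

/-- The charts of `X`. -/
noncomputable def chartX (i : Blk × ℤ) (u : Fin 3 → ℝ) : XX :=
  ⟨(pt i.1 (clamp (u 0), clamp (u 1)), i.2 + u 2), pt_mem ⟨clamp_mem _, clamp_mem _⟩⟩

theorem chartX_val {i : Blk × ℤ} {u : Fin 3 → ℝ} (hu : u ∈ cube 3) :
    (chartX i u).1 = (pt i.1 (u 0, u 1), i.2 + u 2) := by
  simp only [chartX]
  rw [clamp_eq (hu 0).1 (hu 0).2, clamp_eq (hu 1).1 (hu 1).2]

theorem chartX_eq {i j : Blk × ℤ} {u v : Fin 3 → ℝ} (hu : u ∈ cube 3) (hv : v ∈ cube 3) :
    chartX i u = chartX j v ↔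
      pt i.1 (u 0, u 1) = pt j.1 (v 0, v 1) ∧ (i.2 : ℝ) + u 2 = j.2 + v 2 := by
  rw [Subtype.ext_iff, chartX_val hu, chartX_val hv, Prod.ext_iff]

theorem pt_eq_pt {b b' : Blk} (h : b ≠ b') {U V : ℝ × ℝ} :
    pt b U = pt b' V ↔ U = vtx b'.1 b ∧ V = vtx b.1 b' ∧
      ∀ e, e ≠ b → e ≠ b' → vtx b.1 e = vtx b'.1 e := by
  constructor
  · intro H
    refine ⟨?_, ?_, ?_⟩
    · have := congrFun H b
      rwa [pt_same, pt_ne _ h] at this
    · have := congrFun H b'
      rw [pt_same, pt_ne _ h.symm] at this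
      exact this.symm
    · intro e h1 h2
      have := congrFun H e
      rwa [pt_ne _ h1, pt_ne _ h2] at this
  · rintro ⟨h1, h2, h3⟩
    ext1 e
    by_cases e1 : e = b
    · subst e1; rw [pt_same, pt_ne _ h, h1]
    by_cases e2 : e = b'
    · subst e2; rw [pt_same, pt_ne _ e1, h2]
    rw [pt_ne _ e1, pt_ne _ e2, h3 e e1 e2]

/-- faces of the `3`-cube that we need -/
def T3 (P : Prop) (κ : ℝ × ℝ) (Q : Prop) (ε : ℝ) : Set (Fin 3 → ℝ) :=
  {u | u ∈ cube 3 ∧ (P → u 0 = κ.1 ∧ u 1 = κ.2) ∧ (Q → u 2 = ε)}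

theorem T3_face (P : Prop) {κ : ℝ × ℝ} (Q : Prop) {ε : ℝ} (h1 : κ.1 = 0 ∨ κ.1 = 1)
    (h2 : κ.2 = 0 ∨ κ.2 = 1) (h3 : ε = 0 ∨ ε = 1) : IsFace (T3 P κ Q ε) := by
  refine ⟨{i | (P ∧ (i = 0 ∨ i = 1)) ∨ (Q ∧ i = 2)}, ![κ.1, κ.2, ε], ?_, ?_⟩
  · intro i
    fin_cases i
    · simpa using h1
    · simpa using h2
    · simpa using h3
  · ext u
    simp only [T3, Set.mem_ofPred_eq]
    constructor
    · rintro ⟨h, hP, hQ⟩
      refine ⟨h, ?_⟩
      rintro i (⟨p, rfl | rfl⟩ | ⟨q, rfl⟩)
      · simpa using (hP p).1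
      · simpa using (hP p).2
      · simpa using hQ q
    · rintro ⟨h, H⟩
      refine ⟨h, fun p => ⟨?_, ?_⟩, fun q => ?_⟩
      · simpa using H 0 (Or.inl ⟨p, Or.inl rfl⟩)
      · simpa using H 1 (Or.inl ⟨p, Or.inr rfl⟩)
      · simpa using H 2 (Or.inr ⟨q, rfl⟩)

theorem vtx_coord (g : F2) (b : Blk) :
    ((vtx g b).1 = 0 ∨ (vtx g b).1 = 1) ∧ ((vtx g b).2 = 0 ∨ (vtx g b).2 = 1) := by
  unfold vtx
  split_ifs
  · obtain ⟨k, c⟩ := b
    cases c <;> simp [corner]
  · simp

theorem chartX_inj (i : Blk × ℤ) : Set.InjOn (chartX i) (cube 3) := by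
  intro u hu v hv h
  rw [chartX_eq hu hv] at h
  obtain ⟨h1, h2⟩ := h
  have h3 := congrFun h1 i.1
  rw [pt_same, pt_same, Prod.ext_iff] at h3
  ext k
  fin_cases k
  · exact h3.1
  · exact h3.2
  · simpa using h2

theorem chartX_cover (x : XX) : ∃ i : Blk × ℤ, ∃ u ∈ cube 3, chartX i u = x := by
  obtain ⟨⟨y, s⟩, hy⟩ := x
  have hy2 : InY y := hy
  obtain ⟨b, u, hu, rfl⟩ := hy2
  have hc : (![u.1, u.2, s - ⌊s⌋] : Fin 3 → ℝ) ∈ cube 3 := by
    intro k
    have h1 := Int.floor_le s
    have h2 := Int.lt_floor_add_one s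
    fin_cases k
    · exact hu.1
    · exact hu.2
    · simp only [Fin.reduceFinMk, Matrix.cons_val]
      constructor <;> linarith
  refine ⟨(b, ⌊s⌋), ![u.1, u.2, s - ⌊s⌋], hc, ?_⟩
  apply Subtype.ext
  rw [chartX_val hc]
  simp

theorem chartX_glue (i j : Blk × ℤ) (hij : ∃ u ∈ cube 3, ∃ v ∈ cube 3, chartX i u = chartX j v) :
    ∃ (T : Set (Fin 3 → ℝ)) (T' : Set (Fin 3 → ℝ)) (h : (Fin 3 → ℝ) → (Fin 3 → ℝ)),
      IsFace T ∧ IsFace T' ∧ h '' T = T' ∧
      (∀ u ∈ T, ∀ v ∈ T, lpDist 2 (h u) (h v) = lpDist 2 u v) ∧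
      ∀ u ∈ cube 3, ∀ v ∈ cube 3, chartX i u = chartX j v ↔ (u ∈ T ∧ v = h u) := by
  classical
  obtain ⟨b, m⟩ := i
  obtain ⟨b', m'⟩ := j
  obtain ⟨u₀, hu₀, v₀, hv₀, h₀⟩ := hij
  rw [chartX_eq hu₀ hv₀] at h₀
  obtain ⟨h₁, h₂⟩ := h₀
  dsimp only at h₁ h₂
  have hmm : m' = m ∨ m' = m + 1 ∨ m' = m - 1 := by
    have a1 := (hu₀ 2).1
    have a2 := (hu₀ 2).2
    have a3 := (hv₀ 2).1
    have a4 := (hv₀ 2).2
    have b1 : (m' : ℝ) ≤ m + 1 := by linarith
    have b2 : (m : ℝ) ≤ m' + 1 := by linarith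
    have c1 : m' ≤ m + 1 := by exact_mod_cast b1
    have c2 : m ≤ m' + 1 := by exact_mod_cast b2
    omega
  have hadj : b ≠ b' → ∀ e, e ≠ b → e ≠ b' → vtx b.1 e = vtx b'.1 e := fun hb =>
    ((pt_eq_pt hb).mp h₁).2.2
  let ε : ℝ := if m' = m + 1 then 1 else 0
  let ε' : ℝ := if m' = m + 1 then 0 else 1
  let h : (Fin 3 → ℝ) → (Fin 3 → ℝ) := fun u =>
    ![if b = b' then u 0 else (vtx b.1 b').1, if b = b' then u 1 else (vtx b.1 b').2,
      u 2 + (m - m')]
  let h' : (Fin 3 → ℝ) → (Fin 3 → ℝ) := fun u =>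
    ![if b = b' then u 0 else (vtx b'.1 b).1, if b = b' then u 1 else (vtx b'.1 b).2,
      u 2 + (m' - m)]
  have hmap : ∀ u ∈ T3 (b ≠ b') (vtx b'.1 b) (m ≠ m') ε,
      h u ∈ T3 (b ≠ b') (vtx b.1 b') (m ≠ m') ε' := by
    rintro u ⟨hu, hP, hQ⟩
    refine ⟨?_, ?_, ?_⟩
    · intro k
      fin_cases k
      · simp only [h, Fin.zero_eta, Matrix.cons_val_zero]
        split_ifs
        · exact hu 0
        · exact (vtx_mem_sq _ _).1
      · simp only [h, Fin.mk_one, Matrix.cons_val_one, Matrix.cons_val_zero]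
        split_ifs
        · exact hu 1
        · exact (vtx_mem_sq _ _).2
      · simp only [h, Fin.reduceFinMk, Matrix.cons_val]
        rcases hmm with rfl | rfl | rfl
        · simpa using hu 2
        · have := hQ (by omega)
          simp only [ε, if_pos] at this
          rw [this]; push_cast; constructor <;> linarith
        · have := hQ (by omega)
          simp only [ε] at this
          rw [if_neg (by omega)] at this
          rw [this]; push_cast; constructor <;> linarith
    · intro hb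
      simp [h, hb]
    · intro hm
      simp only [h, Matrix.cons_val]
      have h3 := hQ hm
      rcases hmm with rfl | rfl | rfl
      · exact absurd rfl hm
      · simp only [ε, ε', if_pos] at h3 ⊢
        rw [h3]; push_cast; ring
      · simp only [ε, ε'] at h3 ⊢
        rw [if_neg (by omega)] at h3 ⊢
        rw [h3]; push_cast; ring
  have hmap' : ∀ u ∈ T3 (b ≠ b') (vtx b.1 b') (m ≠ m') ε',
      h' u ∈ T3 (b ≠ b') (vtx b'.1 b) (m ≠ m') ε := by
    rintro u ⟨hu, hP, hQ⟩
    refine ⟨?_, ?_, ?_⟩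
    · intro k
      fin_cases k
      · simp only [h', Fin.zero_eta, Matrix.cons_val_zero]
        split_ifs
        · exact hu 0
        · exact (vtx_mem_sq _ _).1
      · simp only [h', Fin.mk_one, Matrix.cons_val_one, Matrix.cons_val_zero]
        split_ifs
        · exact hu 1
        · exact (vtx_mem_sq _ _).2
      · simp only [h', Fin.reduceFinMk, Matrix.cons_val]
        rcases hmm with rfl | rfl | rfl
        · simpa using hu 2
        · have := hQ (by omega)
          simp only [ε', if_pos] at this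
          rw [this]; push_cast; constructor <;> linarith
        · have := hQ (by omega)
          simp only [ε'] at this
          rw [if_neg (by omega)] at this
          rw [this]; push_cast; constructor <;> linarith
    · intro hb
      simp [h', hb]
    · intro hm
      simp only [h', Matrix.cons_val]
      have h3 := hQ hm
      rcases hmm with rfl | rfl | rfl
      · exact absurd rfl hm
      · simp only [ε, ε', if_pos] at h3 ⊢
        rw [h3]; push_cast; ring
      · simp only [ε, ε'] at h3 ⊢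
        rw [if_neg (by omega)] at h3 ⊢
        rw [h3]; push_cast; ring
  have hε : ε = 0 ∨ ε = 1 := by
    simp only [ε]; split_ifs
    · exact Or.inr rfl
    · exact Or.inl rfl
  have hε' : ε' = 0 ∨ ε' = 1 := by
    simp only [ε']; split_ifs
    · exact Or.inl rfl
    · exact Or.inr rfl
  refine ⟨T3 (b ≠ b') (vtx b'.1 b) (m ≠ m') ε, T3 (b ≠ b') (vtx b.1 b') (m ≠ m') ε', h,
    T3_face _ _ (vtx_coord _ _).1 (vtx_coord _ _).2 hε,
    T3_face _ _ (vtx_coord _ _).1 (vtx_coord _ _).2 hε', ?_, ?_, ?_⟩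
  · apply Set.Subset.antisymm
    · rintro _ ⟨u, hu, rfl⟩
      exact hmap u hu
    · intro v hv
      refine ⟨h' v, hmap' v hv, ?_⟩
      ext k
      obtain ⟨_, hP, _⟩ := hv
      fin_cases k
      · simp only [h, h', Fin.zero_eta, Matrix.cons_val_zero]
        split_ifs with hb
        · rfl
        · exact (hP hb).1.symm
      · simp only [h, h', Fin.mk_one, Matrix.cons_val_one, Matrix.cons_val_zero]
        split_ifs with hb
        · rfl
        · exact (hP hb).2.symm
      · simp only [h, h', Fin.reduceFinMk, Matrix.cons_val]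
        ring
  · rintro u ⟨_, hP, _⟩ v ⟨_, hP', _⟩
    simp only [lpDist, Fin.sum_univ_three]
    congr 1
    have e0 : h u 0 - h v 0 = u 0 - v 0 := by
      simp only [h, Matrix.cons_val_zero]
      split_ifs with hb
      · rfl
      · rw [(hP hb).1, (hP' hb).1]; ring
    have e1 : h u 1 - h v 1 = u 1 - v 1 := by
      simp only [h, Matrix.cons_val_one, Matrix.cons_val_zero]
      split_ifs with hb
      · rfl
      · rw [(hP hb).2, (hP' hb).2]; ring
    have e2 : h u 2 - h v 2 = u 2 - v 2 := by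
      simp [h]
    rw [e0, e1, e2]
  · intro u hu v hv
    rw [chartX_eq hu hv]
    dsimp only
    constructor
    · rintro ⟨e1, e2⟩
      refine ⟨⟨hu, ?_, ?_⟩, ?_⟩
      · intro hb
        have := ((pt_eq_pt hb).mp e1).1
        rw [Prod.ext_iff] at this
        exact this
      · intro hm
        have a1 := (hu 2).1
        have a2 := (hu 2).2
        have a3 := (hv 2).1
        have a4 := (hv 2).2
        rcases hmm with rfl | rfl | rfl
        · exact absurd rfl hm
        · simp only [ε, if_pos]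
          push_cast at e2
          linarith
        · simp only [ε]
          rw [if_neg (by omega)]
          push_cast at e2
          linarith
      · ext k
        fin_cases k
        · simp only [h, Fin.zero_eta, Matrix.cons_val_zero]
          split_ifs with hb
          · subst hb
            have := congrFun e1 b
            rw [pt_same, pt_same, Prod.ext_iff] at this
            exact this.1.symm
          · have := ((pt_eq_pt hb).mp e1).2.1
            rw [Prod.ext_iff] at this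
            exact this.1
        · simp only [h, Fin.mk_one, Matrix.cons_val_one, Matrix.cons_val_zero]
          split_ifs with hb
          · subst hb
            have := congrFun e1 b
            rw [pt_same, pt_same, Prod.ext_iff] at this
            exact this.2.symm
          · have := ((pt_eq_pt hb).mp e1).2.1
            rw [Prod.ext_iff] at this
            exact this.2
        · simp only [h, Fin.reduceFinMk, Matrix.cons_val]
          linarith
    · rintro ⟨⟨_, hP, _⟩, rfl⟩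
      refine ⟨?_, ?_⟩
      · by_cases hb : b = b'
        · subst hb
          simp [h]
        · rw [pt_eq_pt hb]
          refine ⟨?_, ?_, hadj hb⟩
          · rw [Prod.ext_iff]; exact hP hb
          · simp [h, hb]
      · simp only [h, Matrix.cons_val]
        ring

/-- The cube complex structure on `X`. -/
noncomputable def KX : CubeComplex XX where
  Idx := Blk × ℤ
  dim := fun _ => 3
  chart := chartX
  cover := chartX_cover
  inj := chartX_inj
  glue := chartX_glue

theorem lpDist_three {p : ℝ} (hp : 1 ≤ p) (u v : Fin 3 → ℝ) :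
    lpDist p u v = nrm2 p (nrm p ((u 0, u 1) - (v 0, v 1))) (u 2 - v 2) := by
  rw [nrm2, abs_of_nonneg (nrm_nonneg _ _)]
  simp only [nrm]
  rw [nrm2_rpow hp, lpDist, Fin.sum_univ_three]
  simp

theorem DX_chart {p : ℝ} (hp : 1 ≤ p) (i : Blk × ℤ) {u v : Fin 3 → ℝ} (hu : u ∈ cube 3)
    (hv : v ∈ cube 3) : DX p (chartX i u) (chartX i v) = lpDist p u v := by
  rw [lpDist_three hp, DX, chartX_val hu, chartX_val hv]
  dsimp only
  rw [D_pt hp]
  congr 1
  ring

theorem Chain.trans {p : ℝ} {x y z : XX} {L L' : ℝ} (h : KX.Chain p x y L)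
    (h' : KX.Chain p y z L') : KX.Chain p x z (L + L') := by
  induction h with
  | refl x => simpa using h'
  | step i u v hu hv _ ih =>
    rw [add_assoc]
    exact CubeComplex.Chain.step i u v hu hv (ih h')

theorem lpDist_comm (p : ℝ) {n : ℕ} (u v : Fin n → ℝ) : lpDist p u v = lpDist p v u := by
  simp only [lpDist]
  congr 1
  apply Finset.sum_congr rfl
  intro i _
  rw [abs_sub_comm]

theorem Chain.symm {p : ℝ} {x y : XX} {L : ℝ} (h : KX.Chain p x y L) : KX.Chain p y x L := by
  induction h with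
  | refl x => exact CubeComplex.Chain.refl x
  | step i u v hu hv _ ih =>
    have h1 := CubeComplex.Chain.step i v u hv hu (CubeComplex.Chain.refl (K := KX) (p := p) _)
    have h2 := Chain.trans ih h1
    rw [add_zero, add_comm, lpDist_comm] at h2
    exact h2

theorem Chain.le {p : ℝ} (hp : 1 ≤ p) {x y : XX} {L : ℝ} (h : KX.Chain p x y L) :
    DX p x y ≤ L := by
  induction h with
  | refl x => exact (((DX_isMetric hp).2.1 x x).mpr rfl).le
  | step i u v hu hv _ ih =>
    refine ((DX_isMetric hp).2.2.2 _ _ _).trans (add_le_add (DX_chart hp i hu hv).le ih)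

theorem KX_step {p : ℝ} {y : XX} {L : ℝ} (i : Blk × ℤ) {u v : Fin 3 → ℝ} (hu : u ∈ cube 3)
    (hv : v ∈ cube 3) (h : KX.Chain p (chartX i v) y L) :
    KX.Chain p (chartX i u) y (lpDist p u v + L) :=
  CubeComplex.Chain.step (K := KX) i u v hu hv h

theorem chain_one {p : ℝ} (hp : 1 ≤ p) {b : Blk} {U V : ℝ × ℝ} (hU : U ∈ sq) (hV : V ∈ sq)
    {s t : ℝ} {m : ℤ} (hs : (m : ℝ) ≤ s) (hs' : s ≤ m + 1) (ht : (m : ℝ) ≤ t) (ht' : t ≤ m + 1) :
    KX.Chain p ⟨(pt b U, s), pt_mem hU⟩ ⟨(pt b V, t), pt_mem hV⟩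
      (nrm2 p (nrm p (U - V)) (s - t)) := by
  have hc : ∀ (W : ℝ × ℝ) (r : ℝ), W ∈ sq → (m : ℝ) ≤ r → r ≤ m + 1 →
      (![W.1, W.2, r - m] : Fin 3 → ℝ) ∈ cube 3 := by
    intro W r hW h1 h2 k
    fin_cases k
    · exact hW.1
    · exact hW.2
    · simp only [Fin.reduceFinMk, Matrix.cons_val]
      constructor <;> linarith
  have he : ∀ (W : ℝ × ℝ) (r : ℝ) (hW : W ∈ sq) (h1 : (m : ℝ) ≤ r) (h2 : r ≤ m + 1),
      chartX (b, m) ![W.1, W.2, r - m] = ⟨(pt b W, r), pt_mem hW⟩ := by
    intro W r hW h1 h2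
    apply Subtype.ext
    rw [chartX_val (hc W r hW h1 h2)]
    simp
  have h1 := KX_step (p := p) (b, m) (hc U s hU hs hs') (hc V t hV ht ht')
    (CubeComplex.Chain.refl _)
  rw [he U s hU hs hs', he V t hV ht ht', add_zero, lpDist_three hp] at h1
  simpa using h1

theorem chain_block_aux {p : ℝ} (hp : 1 ≤ p) {b : Blk} (n : ℕ) :
    ∀ {U V : ℝ × ℝ} (hU : U ∈ sq) (hV : V ∈ sq) {s t : ℝ}, s ≤ t → ⌊t⌋ - ⌊s⌋ ≤ n →
    KX.Chain p ⟨(pt b U, s), pt_mem hU⟩ ⟨(pt b V, t), pt_mem hV⟩
      (nrm2 p (nrm p (U - V)) (s - t)) := by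
  induction n with
  | zero =>
    intro U V hU hV s t hst hn
    have h1 := Int.floor_le s
    have h2 := Int.lt_floor_add_one t
    have h3 : ⌊t⌋ ≤ ⌊s⌋ := by push_cast at hn; linarith
    have h4 : (⌊t⌋ : ℝ) ≤ ⌊s⌋ := by exact_mod_cast h3
    exact chain_one hp hU hV (m := ⌊s⌋) h1 (by linarith) (by linarith) (by linarith)
  | succ n ih =>
    intro U V hU hV s t hst hn
    by_cases h0 : t ≤ ⌊s⌋ + 1
    · have h1 := Int.floor_le s
      exact chain_one hp hU hV (m := ⌊s⌋) h1 (by linarith) (by linarith) h0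
    · push Not at h0
      have h1 := Int.floor_le s
      have h2 := Int.lt_floor_add_one s
      have hst' : 0 < t - s := by linarith
      set r : ℝ := (⌊s⌋ : ℝ) + 1 with hr
      set θ := (r - s) / (t - s) with hθ
      have hθ0 : 0 ≤ θ := div_nonneg (by linarith) hst'.le
      have hθ1 : θ ≤ 1 := by rw [hθ, div_le_one hst']; linarith
      have hθs : θ * (t - s) = r - s := by rw [hθ]; field_simp
      set W := U + θ • (V - U) with hW
      have hWm : W ∈ sq := sq_combo hU hV hθ0 hθ1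
      have c1 := chain_one (b := b) hp hU hWm (m := ⌊s⌋) h1 h2.le (t := r) (by linarith)
        (by rw [hr])
      have hfl : ⌊r⌋ = ⌊s⌋ + 1 := by
        rw [hr]
        have : ((⌊s⌋ : ℝ) + 1) = ((⌊s⌋ + 1 : ℤ) : ℝ) := by push_cast; ring
        rw [this, Int.floor_intCast]
      have c2 := ih hWm hV (s := r) (t := t) h0.le (by rw [hfl]; push_cast at hn; linarith)
      have e1 : U - W = θ • (U - V) := by
        rw [hW]; ext <;> simp <;> ring
      have e2 : W - V = (1 - θ) • (U - V) := by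
        rw [hW]; ext <;> simp <;> ring
      have f1 : nrm2 p (nrm p (U - W)) (s - r) = θ * nrm2 p (nrm p (U - V)) (s - t) := by
        rw [e1, nrm_smul hp, abs_of_nonneg hθ0]
        have : s - r = θ * (s - t) := by linarith
        rw [this, nrm2_smul hp, abs_of_nonneg hθ0]
      have f2 : nrm2 p (nrm p (W - V)) (r - t) = (1 - θ) * nrm2 p (nrm p (U - V)) (s - t) := by
        have h3 : (0 : ℝ) ≤ 1 - θ := by linarith
        rw [e2, nrm_smul hp, abs_of_nonneg h3]
        have : r - t = (1 - θ) * (s - t) := by linarith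
        rw [this, nrm2_smul hp, abs_of_nonneg h3]
      have c3 := Chain.trans c1 c2
      rw [f1, f2] at c3
      convert c3 using 1
      ring

theorem chain_block {p : ℝ} (hp : 1 ≤ p) {b : Blk} {U V : ℝ × ℝ} (hU : U ∈ sq) (hV : V ∈ sq)
    (s t : ℝ) :
    KX.Chain p ⟨(pt b U, s), pt_mem hU⟩ ⟨(pt b V, t), pt_mem hV⟩
      (nrm2 p (nrm p (U - V)) (s - t)) := by
  rcases le_total s t with h | h
  · refine chain_block_aux hp (⌊t⌋ - ⌊s⌋).toNat hU hV h ?_
    exact Int.self_le_toNat _
  · have := chain_block_aux (b := b) hp (⌊s⌋ - ⌊t⌋).toNat hV hU h (Int.self_le_toNat _)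
    have h2 := Chain.symm this
    rw [← nrm2_abs, abs_sub_comm, nrm2_abs, nrm_sub_comm] at h2
    exact h2

theorem chain_all {p : ℝ} (hp : 1 ≤ p) {y z : Blk → ℝ × ℝ} (hy : InY y) (hz : InY z) (s t : ℝ) :
    KX.Chain p ⟨(y, s), hy⟩ ⟨(z, t), hz⟩ (nrm2 p (D p y z) (s - t)) := by
  revert s t
  have H : ∀ (hy : InY y) (hz : InY z) (s t : ℝ),
      KX.Chain p ⟨(y, s), hy⟩ ⟨(z, t), hz⟩ (nrm2 p (D p y z) (s - t)) := by
    refine Y_induction (Q := fun y z => ∀ (hy : InY y) (hz : InY z) (s t : ℝ),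
      KX.Chain p ⟨(y, s), hy⟩ ⟨(z, t), hz⟩ (nrm2 p (D p y z) (s - t))) ?_ ?_ hy hz
    · intro y hy hy' hy'' s t
      obtain ⟨b, u, hu, rfl⟩ := hy
      have := chain_block (b := b) hp hu hu s t
      rw [sub_self, nrm_zero hp] at this
      rw [D_self hp]
      exact this
    · intro b u v z hu hv huv hz hzv ih hyY hz' s t
      have hw : InY (pt b v) := pt_mem hv
      have hL : D p (pt b u) z = D p (pt b u) (pt b v) + D p (pt b v) z :=
        D_btw hp hyY hw hz (btw_step hzv)
      have haD : D p (pt b u) (pt b v) = nrm p (u - v) := D_pt hp b u v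
      have ha0 : 0 < nrm p (u - v) := by
        rcases eq_or_lt_of_le (nrm_nonneg p (u - v)) with h | h
        · exact absurd (sub_eq_zero.mp (nrm_eq_zero hp h.symm)) huv
        · exact h
      rw [haD] at hL
      have hb0 : 0 ≤ D p (pt b v) z := D_nonneg _ _
      set a := nrm p (u - v) with ha
      set b' := D p (pt b v) z with hb'
      have hL0 : 0 < a + b' := by linarith
      set θ := a / (a + b') with hθ
      have hθ0 : 0 ≤ θ := by positivity
      have hθa : θ * (a + b') = a := by rw [hθ]; field_simp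
      have hθ1 : 0 ≤ 1 - θ := by
        have : θ ≤ 1 := by rw [hθ, div_le_one hL0]; linarith
        linarith
      have c1 := chain_block (b := b) hp hu hv s (s + θ * (t - s))
      have c2 := ih hw hz' (s + θ * (t - s)) t
      rw [← ha] at c1
      have c3 := Chain.trans c1 c2
      have f1 : nrm2 p a (s - (s + θ * (t - s))) = θ * nrm2 p (a + b') (s - t) := by
        have e1 : s - (s + θ * (t - s)) = θ * (s - t) := by ring
        rw [e1]
        conv_lhs => rw [← hθa]
        rw [nrm2_smul hp, abs_of_nonneg hθ0]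
      have f2 : nrm2 p b' (s + θ * (t - s) - t) = (1 - θ) * nrm2 p (a + b') (s - t) := by
        have e1 : s + θ * (t - s) - t = (1 - θ) * (s - t) := by ring
        have e2 : b' = (1 - θ) * (a + b') := by linarith
        rw [e1]
        conv_lhs => rw [e2]
        rw [nrm2_smul hp, abs_of_nonneg hθ1]
      rw [f1, f2] at c3
      rw [hL]
      convert c3 using 1
      ring
  exact H hy hz

theorem KX_dist {p : ℝ} (hp : 1 ≤ p) : KX.dist p = DX p := by
  ext x y
  apply IsLeast.csInf_eq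
  exact ⟨chain_all hp x.2 y.2 x.1.2 y.1.2, fun L hL => Chain.le hp hL⟩

end Pool.Agent.TH588
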