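import Mathlib
import Pool.Agent.TH588.Complex

set_option autoImplicit false

/-! The group `F_2 × ℤ` acts on `X` by automorphisms, freely and cocompactly. -/

namespace Pool.Agent.TH588

open FreeGroup

/-- The action of the free group on the coordinates. -/
def act (k : F2) (y : Blk → ℝ × ℝ) : Blk → ℝ × ℝ := fun b => y (k⁻¹ * b.1, b.2)

theorem act_vtx (k g : F2) : act k (vtx g) = vtx (k * g) := by
  ext1 b
  simp only [act, vtx]
  have := side_mul_left k g (k⁻¹ * b.1, b.2)
  simp only [mul_inv_cancel_left] at this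
  rw [this]

theorem act_pt (k : F2) (b : Blk) (u : ℝ × ℝ) : act k (pt b u) = pt (k * b.1, b.2) u := by
  ext1 e
  by_cases h : e = (k * b.1, b.2)
  · subst h
    simp [act]
  · rw [pt_ne _ h]
    have h2 : ((k⁻¹ * e.1, e.2) : Blk) ≠ b := by
      rintro rfl
      apply h
      simp
    simp only [act]
    rw [pt_ne _ h2]
    exact congrFun (act_vtx k b.1) e

theorem act_inY {y : Blk → ℝ × ℝ} (hy : InY y) (k : F2) : InY (act k y) := by
  obtain ⟨b, u, hu, rfl⟩ := hy
  rw [act_pt]
  exact pt_mem hu

/-- The group `F_2 × ℤ`. -/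
abbrev GX : Type := F2 × Multiplicative ℤ

noncomputable instance actX : MulAction GX XX where
  smul g x := ⟨(act g.1 x.1.1, x.1.2 + (Multiplicative.toAdd g.2 : ℤ)), act_inY x.2 g.1⟩
  one_smul x := by
    apply Subtype.ext
    change (act 1 x.1.1, x.1.2 + ((Multiplicative.toAdd (1 : Multiplicative ℤ) : ℤ) : ℝ)) = x.1
    ext1
    · ext1 b
      simp [act]
    · simp
  mul_smul g h x := by
    apply Subtype.ext
    change (act (g.1 * h.1) x.1.1, x.1.2 + ((Multiplicative.toAdd (g.2 * h.2) : ℤ) : ℝ)) =
      (act g.1 (act h.1 x.1.1), x.1.2 + ((Multiplicative.toAdd h.2 : ℤ) : ℝ) +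
        ((Multiplicative.toAdd g.2 : ℤ) : ℝ))
    ext1
    · ext1 b
      simp [act, mul_assoc]
    · simp only [toAdd_mul]
      push_cast
      ring

theorem smul_val (g : GX) (x : XX) :
    (g • x).1 = (act g.1 x.1.1, x.1.2 + ((Multiplicative.toAdd g.2 : ℤ) : ℝ)) := rfl

theorem smul_chart (g : GX) (i : Blk × ℤ) {u : Fin 3 → ℝ} (hu : u ∈ cube 3) :
    g • chartX i u = chartX ((g.1 * i.1.1, i.1.2), i.2 + Multiplicative.toAdd g.2) u := by
  apply Subtype.ext
  rw [smul_val, chartX_val hu, chartX_val hu]
  dsimp only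
  rw [act_pt]
  ext1
  · rfl
  · simp only
    push_cast
    ring

theorem acts : KX.ActsByAutomorphisms GX := by
  intro g i
  refine ⟨((g.1 * i.1.1, i.1.2), i.2 + Multiplicative.toAdd g.2), fun u => u, ?_, ?_, ?_⟩
  · exact Set.image_id _
  · intro u _ v _
    rfl
  · intro u hu
    exact smul_chart g i hu

theorem isCompact_cube (n : ℕ) : IsCompact (cube n) := by
  have : cube n = Set.Icc 0 1 := by
    ext u
    simp [cube, Set.mem_Icc, Pi.le_def, forall_and]
  rw [this]
  exact isCompact_Icc

theorem continuous_chart {p : ℝ} (hp : 1 ≤ p) (i : Blk × ℤ) :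
    @Continuous (cube 3) XX _ (ballTopology (DX p)) (fun u => chartX i u.1) := by
  let _ : TopologicalSpace XX := ballTopology (DX p)
  apply continuous_generateFrom_iff.mpr
  rintro _ ⟨x, r, rfl⟩
  have hc : Continuous fun u : cube 3 => DX p x (chartX i u.1) := by
    rw [continuous_iff_continuousAt]
    intro u
    have hl : Continuous fun v : cube 3 => lpDist p v.1 u.1 := by
      unfold lpDist
      apply Continuous.rpow_const
      · apply continuous_finsetSum
        intro j _
        apply Continuous.rpow_const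
        · have : Continuous fun v : cube 3 => v.1 j := (continuous_apply j).comp continuous_subtype_val
          exact (this.sub continuous_const).abs
        · intro v; right; linarith
      · intro v; right; positivity
    have h0 : lpDist p u.1 u.1 = 0 := by
      rw [← DX_chart hp i u.2 u.2]
      exact ((DX_isMetric hp).2.1 _ _).mpr rfl
    rw [ContinuousAt, Metric.tendsto_nhds]
    intro ε hε
    have h1 := (hl.tendsto u).eventually (gt_mem_nhds (show lpDist p u.1 u.1 < ε by rw [h0]; exact hε))
    filter_upwards [h1] with v hv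
    rw [← DX_chart hp i v.2 u.2] at hv
    have t1 := (DX_isMetric hp).2.2.2 x (chartX i u.1) (chartX i v.1)
    have t2 := (DX_isMetric hp).2.2.2 x (chartX i v.1) (chartX i u.1)
    rw [(DX_isMetric hp).2.2.1 (chartX i u.1) (chartX i v.1)] at t1
    rw [Real.dist_eq, abs_lt]
    constructor <;> linarith
  exact hc.isOpen_preimage _ isOpen_Iio

/-- A compact fundamental domain. -/
theorem exists_compact {p : ℝ} (hp : 1 ≤ p) : ∃ C : Set XX, @IsCompact XX (ballTopology (DX p)) C ∧
    ∀ x : XX, ∃ g : GX, g • x ∈ C := by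
  let _ : TopologicalSpace XX := ballTopology (DX p)
  have : CompactSpace (cube 3) := isCompact_iff_compactSpace.mp (isCompact_cube 3)
  refine ⟨Set.range (fun u : cube 3 => chartX ((1, false), 0) u.1) ∪
    Set.range (fun u : cube 3 => chartX ((1, true), 0) u.1), ?_, ?_⟩
  · exact (isCompact_range (continuous_chart hp _)).union (isCompact_range (continuous_chart hp _))
  · intro x
    obtain ⟨⟨⟨k, c⟩, m⟩, u, hu, rfl⟩ := chartX_cover x
    refine ⟨(k⁻¹, Multiplicative.ofAdd (-m)), ?_⟩
    rw [smul_chart _ _ hu]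
    simp only [inv_mul_cancel, toAdd_ofAdd, add_neg_cancel]
    cases c
    · left; exact ⟨⟨u, hu⟩, rfl⟩
    · right; exact ⟨⟨u, hu⟩, rfl⟩

theorem compact_quotient {p : ℝ} (hp : 1 ≤ p) :
    @CompactSpace (MulAction.orbitRel.Quotient GX XX)
      (@instTopologicalSpaceQuotient XX (MulAction.orbitRel GX XX) (ballTopology (DX p))) := by
  let _ : TopologicalSpace XX := ballTopology (DX p)
  obtain ⟨C, hC, hCG⟩ := exists_compact hp
  constructor
  have h1 : (Set.univ : Set (MulAction.orbitRel.Quotient GX XX)) =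
      (Quotient.mk (MulAction.orbitRel GX XX)) '' C := by
    ext q
    simp only [Set.mem_univ, true_iff]
    obtain ⟨x, rfl⟩ := Quotient.exists_rep q
    obtain ⟨g, hg⟩ := hCG x
    exact ⟨g • x, hg, Quotient.sound ⟨g, rfl⟩⟩
  have h2 : @IsCompact (MulAction.orbitRel.Quotient GX XX)
      (@instTopologicalSpaceQuotient XX (MulAction.orbitRel GX XX) (ballTopology (DX p)))
      ((Quotient.mk (MulAction.orbitRel GX XX)) '' C) := hC.image continuous_quotient_mk'
  rw [h1]
  exact h2

/-- The action is free. -/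
theorem free (g : GX) (x : XX) (h : g • x = x) : g = 1 := by
  obtain ⟨k, n⟩ := g
  rw [Subtype.ext_iff, smul_val, Prod.ext_iff] at h
  obtain ⟨h1, h2⟩ := h
  dsimp only at h1 h2
  have hn : n = 1 := by
    have : ((Multiplicative.toAdd n : ℤ) : ℝ) = 0 := by linarith
    have h3 : Multiplicative.toAdd n = 0 := by exact_mod_cast this
    exact toAdd_eq_zero.mp h3
  have hk : k = 1 := by
    by_contra hk
    obtain ⟨b, u, hu, hx⟩ := x.2
    have hg : ∃ g, pt b u = vtx g := by
      rw [hx, act_pt] at h1
      have hne : ((k * b.1, b.2) : Blk) ≠ b := by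
        intro h
        rw [Prod.ext_iff] at h
        exact hk (mul_eq_right.mp h.1)
      have h3 := ((pt_eq_pt hne).mp h1).2.1
      dsimp only at h3
      cases h : side (k * b.1) b
      · refine ⟨b.1, ?_⟩
        rw [vtx_eq_near, h3]
        simp [vtx, h]
      · refine ⟨far b, ?_⟩
        rw [vtx_eq_far, h3]
        simp [vtx, h]
    obtain ⟨g, hg⟩ := hg
    rw [hx, hg, act_vtx] at h1
    have h4 : side (k * g) = side g := by
      ext1 e
      rw [← vtx_eq_iff]
      exact congrFun h1 e
    exact hk (mul_eq_right.mp (side_inj h4))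
  rw [hk, hn]
  rfl

end Pool.Agent.TH588
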