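import Mathlib
import Pool.Agent.TH588.Action

set_option autoImplicit false

/-! The action of `F_2 × ℤ` on `X` is metrically proper. -/

namespace Pool.Agent.TH588

open FreeGroup

theorem finite_near (g : F2) (N : ℕ) : {h : F2 | {e | side h e ≠ side g e}.ncard ≤ N}.Finite := by
  induction N with
  | zero =>
    apply (Set.finite_singleton g).subset
    intro h hh
    have h0 : {e | side h e ≠ side g e} = ∅ := by
      rw [Set.mem_ofPred_eq, Nat.le_zero, Set.ncard_eq_zero (finite_side h g)] at hh
      exact hh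
    apply side_inj
    ext1 e
    by_contra hne
    have : e ∈ ({e | side h e ≠ side g e} : Set Blk) := hne
    rw [h0] at this
    exact this
  | succ N ih =>
    set S := {h : F2 | {e | side h e ≠ side g e}.ncard ≤ N} with hS
    have hfin : ({g} ∪ ((fun h => h * (of true)⁻¹) '' S ∪ (fun h => h * (of false)⁻¹) '' S) ∪
        ((fun h => h * of true) '' S ∪ (fun h => h * of false) '' S)).Finite :=
      ((Set.finite_singleton g).union ((ih.image _).union (ih.image _))).union
        ((ih.image _).union (ih.image _))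
    apply hfin.subset
    intro h hh
    by_cases hg : h = g
    · left; left; exact hg
    have hlt : ∀ (h3 : F2) (e : Blk), (∀ b, b ≠ e → side h3 b = side h b) →
        side h3 e = side g e → side h e ≠ side g e → h3 ∈ S := by
      intro h3 e H1 H2 H3
      have : ({x | side h3 x ≠ side g x} : Set Blk).ncard <
          ({x | side h x ≠ side g x} : Set Blk).ncard := by
        apply Set.ncard_lt_ncard _ (finite_side h g)
        rw [Set.ssubset_iff_of_subset]
        · exact ⟨e, H3, fun h => h H2⟩
        · intro x hx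
          by_cases hxe : x = e
          · exact absurd H2 (by rw [← hxe]; exact hx)
          · simpa [H1 x hxe] using hx
      have hh' : ({x | side h x ≠ side g x} : Set Blk).ncard ≤ N + 1 := hh
      change ({x | side h3 x ≠ side g x} : Set Blk).ncard ≤ N
      omega
    rcases exists_step hg with ⟨c, hc⟩ | ⟨c, hc⟩
    · have hs : side h (h, c) = false := side_self h c
      have hm : h * of c ∈ S := by
        apply hlt (h * of c) (h, c)
        · intro b hb
          rw [side_mul, if_neg hb]
        · rw [side_mul, if_pos rfl, hc]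
        · rw [hs, hc]; simp
      left; right
      cases c
      · right; exact ⟨_, hm, by simp⟩
      · left; exact ⟨_, hm, by simp⟩
    · have hs : side h (h * (of c)⁻¹, c) = true := by rw [side_mul_inv, if_pos rfl]
      have hm : h * (of c)⁻¹ ∈ S := by
        apply hlt (h * (of c)⁻¹) (h * (of c)⁻¹, c)
        · intro b hb
          rw [side_mul_inv h c b, if_neg hb]
        · rw [side_self, hc]
        · rw [hs, hc]; simp
      right
      cases c
      · right; exact ⟨_, hm, by simp⟩
      · left; exact ⟨_, hm, by simp⟩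

theorem one_le_corner {p : ℝ} (hp : 1 ≤ p) (c : Bool) : 1 ≤ nrm p (corner c) := by
  have := le_nrm2_left hp (corner c).1 (corner c).2
  have h1 : (corner c).1 = 1 := by cases c <;> simp [corner]
  rw [h1, abs_one] at this
  have h2 : nrm p (corner c) = nrm2 p 1 (corner c).2 := by simp only [nrm, h1]
  rw [h2]
  exact this

theorem ncard_le_D {p : ℝ} (hp : 1 ≤ p) (g h : F2) :
    (({e | side g e ≠ side h e} : Set Blk).ncard : ℝ) ≤ D p (vtx g) (vtx h) := by
  have hfin := finite_side g h
  have hsub : (Function.support fun b => nrm p (vtx g b - vtx h b)) ⊆ (hfin.toFinset : Set Blk) := by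
    intro b hb
    simp only [Set.Finite.coe_toFinset, Set.mem_ofPred_eq]
    intro heq
    apply hb
    have : vtx g b = vtx h b := (vtx_eq_iff g h b).mpr heq
    simp [this, nrm_zero hp]
  unfold D
  rw [finsum_eq_sum_of_support_subset _ hsub, Set.ncard_eq_toFinset_card _ hfin]
  have : ∀ b ∈ hfin.toFinset, (1 : ℝ) ≤ nrm p (vtx g b - vtx h b) := by
    intro b hb
    rw [Set.Finite.mem_toFinset, Set.mem_ofPred_eq] at hb
    unfold vtx
    cases h1 : side g b <;> cases h2 : side h b
    · rw [h1, h2] at hb; exact absurd rfl hb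
    · simp only [Bool.false_eq_true, if_false, if_true, zero_sub, nrm_neg]
      exact one_le_corner hp _
    · simp only [Bool.false_eq_true, if_false, if_true, sub_zero]
      exact one_le_corner hp _
    · rw [h1, h2] at hb; exact absurd rfl hb
  have h3 := Finset.card_nsmul_le_sum hfin.toFinset (fun b => nrm p (vtx g b - vtx h b)) 1 this
  simpa using h3

theorem proper {p : ℝ} (hp : 1 ≤ p) (x : XX) (R : ℝ) : {g : GX | DX p x (g • x) ≤ R}.Finite := by
  obtain ⟨⟨y, s⟩, hy⟩ := x
  have hy2 : InY y := hy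
  obtain ⟨b, u, hu, rfl⟩ := hy2
  -- the two coordinates are bounded
  have h1 : ∀ g : GX, DX p ⟨(pt b u, s), hy⟩ (g • ⟨(pt b u, s), hy⟩) ≤ R →
      (({e | side (g.1 * b.1) e ≠ side b.1 e} : Set Blk).ncard : ℝ) ≤ R + 2 * nrm p u ∧
      |((Multiplicative.toAdd g.2 : ℤ) : ℝ)| ≤ R := by
    intro g hg
    have e1 : DX p ⟨(pt b u, s), hy⟩ (g • ⟨(pt b u, s), hy⟩) =
        nrm2 p (D p (pt b u) (act g.1 (pt b u))) (s - (s + ((Multiplicative.toAdd g.2 : ℤ) : ℝ))) :=
      rfl
    rw [e1, act_pt] at hg
    have h2 := le_nrm2_left hp (D p (pt b u) (pt (g.1 * b.1, b.2) u))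
      (s - (s + ((Multiplicative.toAdd g.2 : ℤ) : ℝ)))
    have h3 := le_nrm2_right hp (D p (pt b u) (pt (g.1 * b.1, b.2) u))
      (s - (s + ((Multiplicative.toAdd g.2 : ℤ) : ℝ)))
    rw [abs_of_nonneg (D_nonneg _ _)] at h2
    have h4 : s - (s + ((Multiplicative.toAdd g.2 : ℤ) : ℝ)) =
      -((Multiplicative.toAdd g.2 : ℤ) : ℝ) := by ring
    rw [h4] at h2 h3 hg
    rw [abs_neg] at h3
    refine ⟨?_, h3.trans hg⟩
    have h5 := ncard_le_D hp (g.1 * b.1) b.1
    have v1 : vtx (g.1 * b.1) = pt (g.1 * b.1, b.2) 0 := vtx_eq_near (g.1 * b.1, b.2)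
    have v2 : vtx b.1 = pt b 0 := vtx_eq_near b
    have d1 : D p (vtx (g.1 * b.1)) (pt (g.1 * b.1, b.2) u) = nrm p u := by
      rw [v1, D_pt hp, zero_sub, nrm_neg]
    have d2 : D p (pt b u) (vtx b.1) = nrm p u := by
      rw [v2, D_pt hp, sub_zero]
    have t1 := D_triangle hp (vtx_inY (g.1 * b.1)) (pt_mem (b := (g.1 * b.1, b.2)) hu)
      (vtx_inY b.1)
    have t2 := D_triangle hp (pt_mem (b := (g.1 * b.1, b.2)) hu) (pt_mem (b := b) hu)
      (vtx_inY b.1)
    rw [D_comm (pt (g.1 * b.1, b.2) u) (pt b u)] at t2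
    linarith
  obtain ⟨N, hN⟩ := exists_nat_ge (R + 2 * nrm p u)
  obtain ⟨M, hM⟩ := exists_nat_ge R
  have hA : {k : F2 | ({e | side (k * b.1) e ≠ side b.1 e} : Set Blk).ncard ≤ N}.Finite := by
    have := (finite_near b.1 N).image (fun h => h * b.1⁻¹)
    apply this.subset
    intro k hk
    exact ⟨k * b.1, hk, by simp⟩
  have hB : {n : Multiplicative ℤ | |((Multiplicative.toAdd n : ℤ) : ℝ)| ≤ M}.Finite := by
    have : (Multiplicative.ofAdd '' (Set.Icc (-(M : ℤ)) M) : Set (Multiplicative ℤ)).Finite :=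
      (Set.finite_Icc _ _).image _
    apply this.subset
    intro n hn
    refine ⟨Multiplicative.toAdd n, ?_, rfl⟩
    rw [Set.mem_ofPred_eq, abs_le] at hn
    constructor
    · have := hn.1; exact_mod_cast this
    · have := hn.2; exact_mod_cast this
  apply (hA.prod hB).subset
  rintro g hg
  obtain ⟨h2, h3⟩ := h1 g hg
  refine ⟨?_, h3.trans hM⟩
  have h4 : (({e | side (g.1 * b.1) e ≠ side b.1 e} : Set Blk).ncard : ℝ) ≤ N := h2.trans hN
  exact_mod_cast h4

end Pool.Agent.TH588
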